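import Pool.Agent.Lib.H69.Hopf.Alt

/-! # H39G, file D: definitions (diagonal curvature tensor minus a simple square), see PROOF.md -/

set_option autoImplicit false

namespace H39G

open Finset Equiv Pool.Agent.H69Hopf

/-- The component at `x, y` of the two-form `e_a ∧ e_b`. -/
def dl {N : ℕ} (a b x y : Fin N) : ℝ :=
  (if a = x then 1 else 0) * (if b = y then 1 else 0) - (if a = y then 1 else 0) * (if b = x then 1 else 0)

/-- The tensor `W - m ⊗ m`, `W` the sum of `w i j (e_i ∧ e_j) ^ 2` over the pairs `i < j` (for symmetric `w`). -/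
def dms {N : ℕ} (w m : Fin N → Fin N → ℝ) : Arr N := fun i j k l => w i j * dl i j k l - m i j * m k l

/-- The simple two-form `a ∧ b`. -/
def wd {N : ℕ} (a b : Fin N → ℝ) : Fin N → Fin N → ℝ := fun i j => a i * b j - a j * b i

/-- The Pluecker relations. -/
def Plu {N : ℕ} (m : Fin N → Fin N → ℝ) : Prop :=
  (∀ i j, m j i = - m i j) ∧ ∀ a b c d, m a b * m c d - m a c * m b d + m a d * m b c = 0

theorem wd_plu {N : ℕ} (a b : Fin N → ℝ) : Plu (wd a b) :=
  ⟨fun i j => by unfold wd; ring, fun i j k l => by unfold wd; ring⟩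

/-- The value of `lam` at the `i`-th pair of the permutation. -/
def lm {n : ℕ} (lam : Fin (2 * n) → Fin (2 * n) → ℝ) (σ : Perm (Fin (2 * n))) (i : Fin n) : ℝ :=
  lam (σ (fst i)) (σ (snd i))

/-- The sum of the four values of `lam` between the `i`-th and the `j`-th pair. -/
def X4 {n : ℕ} (lam : Fin (2 * n) → Fin (2 * n) → ℝ) (σ : Perm (Fin (2 * n))) (i j : Fin n) : ℝ :=
  lam (σ (fst i)) (σ (fst j)) + lam (σ (fst i)) (σ (snd j)) + lam (σ (snd i)) (σ (fst j)) +
    lam (σ (snd i)) (σ (snd j))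

/-- The local quantity of two pairs. -/
noncomputable def gij {n : ℕ} (lam : Fin (2 * n) → Fin (2 * n) → ℝ) (σ : Perm (Fin (2 * n))) (i j : Fin n) : ℝ :=
  (lm lam σ i + lm lam σ j) * X4 lam σ i j / 4 - lm lam σ i * lm lam σ j

/-- The hypotheses: `lam` symmetric, nonnegative, zero on the diagonal, `lam * w = m ^ 2`. -/
structure Dat {N : ℕ} (w m lam : Fin N → Fin N → ℝ) : Prop where
  plu : Plu m
  w0 : ∀ i j, 0 ≤ w i j
  ws : ∀ i j, w i j = w j i
  l0 : ∀ i j, 0 ≤ lam i j
  ls : ∀ i j, lam i j = lam j i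
  ld : ∀ i, lam i i = 0
  lw : ∀ i j, lam i j * w i j = m i j ^ 2

end H39G
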