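import Pool.Agent.Lib.H39G.D

/-! # H39G, chunk G3: the terms with two factors `m ⊗ m` vanish -/

set_option autoImplicit false

namespace H39G

open Finset Equiv Pool.Agent.H69Hopf

/-- PROOF: call the sum `Σ F σ`, `3 Σ F σ = Σ (F σ + F (σ * swap (snd i) (fst j)) + F (σ * swap (snd i) (snd j)))`
(`Equiv.sum_comp (Equiv.mulRight π)`), and for every `σ` the three terms add up to `0`: the signs are `+, -, -`, the other
factors do not change, and with `a, b, c, d = σ (fst i), σ (snd i), σ (fst j), σ (snd j)`: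
`m ab * m cd - m ac * m bd - m ad * m cb = 0` (Pluecker). -/
theorem vanish {n : ℕ} {m : Fin (2 * n) → Fin (2 * n) → ℝ} (h : Plu m) {i j : Fin n} (hij : i ≠ j) (s : Finset (Fin n))
    (hi : i ∈ s) (hj : j ∈ s) (f : Fin n → Fin (2 * n) → Fin (2 * n) → ℝ) :
    ∑ σ : Perm (Fin (2 * n)), ((Perm.sign σ : ℤ) : ℝ) * ((∏ l ∈ s, m (σ (fst l)) (σ (snd l))) *
      ∏ l ∈ univ \ s, f l (σ (fst l)) (σ (snd l))) = 0 := by
  classical
  obtain ⟨hanti, hplu⟩ := h
  have hfix : ∀ x : Fin (2 * n), (x = fst j ∨ x = snd j) → ∀ l : Fin n, l ≠ i → l ≠ j →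
      swap (snd i) x (fst l) = fst l ∧ swap (snd i) x (snd l) = snd l := by
    intro x hx l hli hlj
    have h1 : fst l ≠ x := by
      rcases hx with rfl | rfl
      · exact fun e => hlj (fst_inj.1 e)
      · exact fst_ne_snd l j
    have h2 : snd l ≠ x := by
      rcases hx with rfl | rfl
      · exact fun e => fst_ne_snd j l e.symm
      · exact fun e => hlj (snd_inj.1 e)
    exact ⟨swap_apply_of_ne_of_ne (fst_ne_snd l i) h1,
      swap_apply_of_ne_of_ne (fun e => hli (snd_inj.1 e)) h2⟩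
  -- the value of one term after the swap
  have hterm : ∀ (x : Fin (2 * n)), (x = fst j ∨ x = snd j) → ∀ σ : Perm (Fin (2 * n)),
      ((Perm.sign (σ * swap (snd i) x) : ℤ) : ℝ) *
        ((∏ l ∈ s, m ((σ * swap (snd i) x) (fst l)) ((σ * swap (snd i) x) (snd l))) *
        ∏ l ∈ univ \ s, f l ((σ * swap (snd i) x) (fst l)) ((σ * swap (snd i) x) (snd l))) =
      - (((Perm.sign σ : ℤ) : ℝ) * ((m (σ (fst i)) (σ x) *
        (m ((σ * swap (snd i) x) (fst j)) ((σ * swap (snd i) x) (snd j)) *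
          ∏ l ∈ (s.erase i).erase j, m (σ (fst l)) (σ (snd l)))) *
        ∏ l ∈ univ \ s, f l (σ (fst l)) (σ (snd l)))) := by
    intro x hx σ
    have hne : snd i ≠ x := by
      rcases hx with rfl | rfl
      · exact fun e => fst_ne_snd j i e.symm
      · exact fun e => hij (snd_inj.1 e)
    have hs : ((Perm.sign (σ * swap (snd i) x) : ℤ) : ℝ) = - ((Perm.sign σ : ℤ) : ℝ) := by
      rw [Perm.sign_mul, Perm.sign_swap hne]
      push_cast
      ring
    have hp : (∏ l ∈ s, m ((σ * swap (snd i) x) (fst l)) ((σ * swap (snd i) x) (snd l))) =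
        m (σ (fst i)) (σ x) * (m ((σ * swap (snd i) x) (fst j)) ((σ * swap (snd i) x) (snd j)) *
          ∏ l ∈ (s.erase i).erase j, m (σ (fst l)) (σ (snd l))) := by
      rw [← Finset.mul_prod_erase s _ hi, ← Finset.mul_prod_erase (s.erase i) _
        (Finset.mem_erase.2 ⟨hij.symm, hj⟩)]
      have h1 : (σ * swap (snd i) x) (fst i) = σ (fst i) := by
        rw [Perm.mul_apply, swap_apply_of_ne_of_ne (fst_ne_snd i i)]
        rcases hx with rfl | rfl
        · exact fun e => hij (fst_inj.1 e)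
        · exact fst_ne_snd i j
      have h2 : (σ * swap (snd i) x) (snd i) = σ x := by
        rw [Perm.mul_apply, swap_apply_left]
      rw [h1, h2]
      congr 2
      refine Finset.prod_congr rfl fun l hl => ?_
      rw [Finset.mem_erase, Finset.mem_erase] at hl
      rw [Perm.mul_apply, Perm.mul_apply, (hfix x hx l hl.2.1 hl.1).1, (hfix x hx l hl.2.1 hl.1).2]
    have hq : (∏ l ∈ univ \ s, f l ((σ * swap (snd i) x) (fst l)) ((σ * swap (snd i) x) (snd l))) =
        ∏ l ∈ univ \ s, f l (σ (fst l)) (σ (snd l)) := by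
      refine Finset.prod_congr rfl fun l hl => ?_
      rw [Finset.mem_sdiff] at hl
      have hli : l ≠ i := by
        rintro rfl
        exact hl.2 hi
      have hlj : l ≠ j := by
        rintro rfl
        exact hl.2 hj
      rw [Perm.mul_apply, Perm.mul_apply, (hfix x hx l hli hlj).1, (hfix x hx l hli hlj).2]
    rw [hs, hp, hq]
    ring
  set F : Perm (Fin (2 * n)) → ℝ := fun σ => ((Perm.sign σ : ℤ) : ℝ) *
    ((∏ l ∈ s, m (σ (fst l)) (σ (snd l))) * ∏ l ∈ univ \ s, f l (σ (fst l)) (σ (snd l))) with hF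
  have h1 : ∑ σ, F (σ * swap (snd i) (fst j)) = ∑ σ, F σ :=
    Equiv.sum_comp (Equiv.mulRight (swap (snd i) (fst j))) F
  have h2 : ∑ σ, F (σ * swap (snd i) (snd j)) = ∑ σ, F σ :=
    Equiv.sum_comp (Equiv.mulRight (swap (snd i) (snd j))) F
  have h3 : ∀ σ, F σ + F (σ * swap (snd i) (fst j)) + F (σ * swap (snd i) (snd j)) = 0 := by
    intro σ
    have e0 : F σ = ((Perm.sign σ : ℤ) : ℝ) * ((m (σ (fst i)) (σ (snd i)) *
        (m (σ (fst j)) (σ (snd j)) * ∏ l ∈ (s.erase i).erase j, m (σ (fst l)) (σ (snd l)))) *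
        ∏ l ∈ univ \ s, f l (σ (fst l)) (σ (snd l))) := by
      show ((Perm.sign σ : ℤ) : ℝ) * ((∏ l ∈ s, m (σ (fst l)) (σ (snd l))) *
        ∏ l ∈ univ \ s, f l (σ (fst l)) (σ (snd l))) = _
      rw [← Finset.mul_prod_erase s _ hi, ← Finset.mul_prod_erase (s.erase i) _
        (Finset.mem_erase.2 ⟨hij.symm, hj⟩)]
    have e1 := hterm (fst j) (Or.inl rfl) σ
    have e2 := hterm (snd j) (Or.inr rfl) σ
    have a1 : (σ * swap (snd i) (fst j)) (fst j) = σ (snd i) := by
      rw [Perm.mul_apply, swap_apply_right]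
    have a2 : (σ * swap (snd i) (fst j)) (snd j) = σ (snd j) := by
      rw [Perm.mul_apply, swap_apply_of_ne_of_ne (fun e => hij.symm (snd_inj.1 e))
        (fun e => fst_ne_snd j j e.symm)]
    have b1 : (σ * swap (snd i) (snd j)) (fst j) = σ (fst j) := by
      rw [Perm.mul_apply, swap_apply_of_ne_of_ne (fst_ne_snd j i) (fst_ne_snd j j)]
    have b2 : (σ * swap (snd i) (snd j)) (snd j) = σ (snd i) := by
      rw [Perm.mul_apply, swap_apply_right]
    rw [a1, a2] at e1
    rw [b1, b2] at e2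
    have e1' : F (σ * swap (snd i) (fst j)) = _ := e1
    have e2' : F (σ * swap (snd i) (snd j)) = _ := e2
    rw [e0, e1', e2', hanti (σ (snd i)) (σ (fst j))]
    have hp := hplu (σ (fst i)) (σ (snd i)) (σ (fst j)) (σ (snd j))
    linear_combination (((Perm.sign σ : ℤ) : ℝ) *
      (∏ l ∈ (s.erase i).erase j, m (σ (fst l)) (σ (snd l))) *
        ∏ l ∈ univ \ s, f l (σ (fst l)) (σ (snd l))) * hp
  have h4 : ∑ σ, F σ + ∑ σ, F (σ * swap (snd i) (fst j)) + ∑ σ, F (σ * swap (snd i) (snd j)) = 0 := by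
    rw [← Finset.sum_add_distrib, ← Finset.sum_add_distrib]
    exact Finset.sum_eq_zero fun σ _ => h3 σ
  rw [h1, h2] at h4
  show ∑ σ, F σ = 0
  linarith

end H39G
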