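import Pool.Agent.Lib.H39G.G2
import Pool.Agent.Lib.H39G.G3

/-! # H39G, chunk G: the Gauss-Bonnet-Chern integrand of `W - m ⊗ m` -/

set_option autoImplicit false

namespace H39G

open Finset Equiv Pool.Agent.H69Hopf

/-- The part of the integrand with the factor `- m m` at the indices of `t`. -/
private noncomputable def gG {n : ℕ} (w m : Fin (2 * n) → Fin (2 * n) → ℝ) (t : Finset (Fin n)) : ℝ :=
  ∑ σ : Perm (Fin (2 * n)), ∑ τ : Perm (Fin (2 * n)), ((Perm.sign σ : ℤ) : ℝ) * ((Perm.sign τ : ℤ) : ℝ) *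
    ((∏ i ∈ t, -(m (σ (fst i)) (σ (snd i)) * m (τ (fst i)) (τ (snd i)))) *
      ∏ i ∈ univ \ t, (w (σ (fst i)) (σ (snd i)) * dl (σ (fst i)) (σ (snd i)) (τ (fst i)) (τ (snd i))))

private theorem gG_sum {n : ℕ} (w m : Fin (2 * n) → Fin (2 * n) → ℝ) :
    gaussBonnet n (dms w m) = ∑ t : Finset (Fin n), gG w m t := by
  have hR : ∑ t : Finset (Fin n), gG w m t = ∑ σ : Perm (Fin (2 * n)), ∑ τ : Perm (Fin (2 * n)),
      ∑ t : Finset (Fin n), ((Perm.sign σ : ℤ) : ℝ) * ((Perm.sign τ : ℤ) : ℝ) *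
    ((∏ i ∈ t, -(m (σ (fst i)) (σ (snd i)) * m (τ (fst i)) (τ (snd i)))) *
      ∏ i ∈ univ \ t, (w (σ (fst i)) (σ (snd i)) * dl (σ (fst i)) (σ (snd i)) (τ (fst i)) (τ (snd i)))) := by
    unfold gG
    rw [Finset.sum_comm]
    refine Finset.sum_congr rfl fun σ _ => ?_
    rw [Finset.sum_comm]
  rw [hR]
  unfold gaussBonnet
  refine Finset.sum_congr rfl fun σ _ => Finset.sum_congr rfl fun τ _ => ?_
  rw [← Finset.mul_sum]
  have h1 : ∀ i : Fin n, dms w m (σ (fst i)) (σ (snd i)) (τ (fst i)) (τ (snd i)) =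
      -(m (σ (fst i)) (σ (snd i)) * m (τ (fst i)) (τ (snd i))) +
        w (σ (fst i)) (σ (snd i)) * dl (σ (fst i)) (σ (snd i)) (τ (fst i)) (τ (snd i)) := by
    intro i
    unfold dms
    ring
  rw [Finset.prod_congr rfl fun i _ => h1 i, Finset.prod_add, Finset.powerset_univ]

private theorem gG_van {n : ℕ} {w m : Fin (2 * n) → Fin (2 * n) → ℝ} (h : Plu m) {i j : Fin n} (hij : i ≠ j)
    (t : Finset (Fin n)) (hi : i ∈ t) (hj : j ∈ t) : gG w m t = 0 := by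
  unfold gG
  rw [Finset.sum_comm]
  refine Finset.sum_eq_zero fun τ _ => ?_
  have h1 := vanish h hij t hi hj fun l x y => w x y * dl x y (τ (fst l)) (τ (snd l))
  have h2 : ∀ σ : Perm (Fin (2 * n)), ((Perm.sign σ : ℤ) : ℝ) * ((Perm.sign τ : ℤ) : ℝ) *
      ((∏ i ∈ t, -(m (σ (fst i)) (σ (snd i)) * m (τ (fst i)) (τ (snd i)))) *
        ∏ i ∈ univ \ t, (w (σ (fst i)) (σ (snd i)) * dl (σ (fst i)) (σ (snd i)) (τ (fst i)) (τ (snd i)))) =
      (((Perm.sign τ : ℤ) : ℝ) * ∏ i ∈ t, -(m (τ (fst i)) (τ (snd i)))) *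
        (((Perm.sign σ : ℤ) : ℝ) * ((∏ l ∈ t, m (σ (fst l)) (σ (snd l))) *
          ∏ l ∈ univ \ t, (w (σ (fst l)) (σ (snd l)) * dl (σ (fst l)) (σ (snd l)) (τ (fst l)) (τ (snd l))))) := by
    intro σ
    have h3 : ∏ i ∈ t, -(m (σ (fst i)) (σ (snd i)) * m (τ (fst i)) (τ (snd i))) =
        (∏ l ∈ t, m (σ (fst l)) (σ (snd l))) * ∏ i ∈ t, -(m (τ (fst i)) (τ (snd i))) := by
      rw [← Finset.prod_mul_distrib]
      refine Finset.prod_congr rfl fun i _ => ?_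
      ring
    rw [h3]
    ring
  rw [Finset.sum_congr rfl fun σ _ => h2 σ, ← Finset.mul_sum]
  have h4 : ∑ σ : Perm (Fin (2 * n)), ((Perm.sign σ : ℤ) : ℝ) * ((∏ l ∈ t, m (σ (fst l)) (σ (snd l))) *
      ∏ l ∈ univ \ t, (w (σ (fst l)) (σ (snd l)) * dl (σ (fst l)) (σ (snd l)) (τ (fst l)) (τ (snd l)))) = 0 := h1
  rw [h4, mul_zero]

private theorem sgn_sq {N : ℕ} (σ : Perm (Fin N)) : ((Perm.sign σ : ℤ) : ℝ) * ((Perm.sign σ : ℤ) : ℝ) = 1 := by
  rcases Int.units_eq_one_or (Perm.sign σ) with h | h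
  · rw [h]
    simp
  · rw [h]
    simp

private theorem gG_empty {n : ℕ} (w m : Fin (2 * n) → Fin (2 * n) → ℝ) :
    gG w m ∅ = 2 ^ n * ∑ σ : Perm (Fin (2 * n)), ∏ l, w (σ (fst l)) (σ (snd l)) := by
  unfold gG
  rw [Finset.mul_sum]
  refine Finset.sum_congr rfl fun σ _ => ?_
  simp only [Finset.prod_empty, one_mul, Finset.sdiff_empty, Finset.prod_mul_distrib]
  have h2 : ∀ τ : Perm (Fin (2 * n)), ((Perm.sign σ : ℤ) : ℝ) * ((Perm.sign τ : ℤ) : ℝ) *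
      ((∏ i, w (σ (fst i)) (σ (snd i))) * ∏ i, dl (σ (fst i)) (σ (snd i)) (τ (fst i)) (τ (snd i))) =
      (((Perm.sign σ : ℤ) : ℝ) * ∏ i, w (σ (fst i)) (σ (snd i))) *
        (((Perm.sign τ : ℤ) : ℝ) * ∏ i, dl (σ (fst i)) (σ (snd i)) (τ (fst i)) (τ (snd i))) := by
    intro τ
    ring
  rw [Finset.sum_congr rfl fun τ _ => h2 τ, ← Finset.mul_sum, diag0]
  calc (((Perm.sign σ : ℤ) : ℝ) * ∏ i, w (σ (fst i)) (σ (snd i))) * (2 ^ n * ((Perm.sign σ : ℤ) : ℝ)) =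
      (((Perm.sign σ : ℤ) : ℝ) * ((Perm.sign σ : ℤ) : ℝ)) * (2 ^ n * ∏ i, w (σ (fst i)) (σ (snd i))) := by ring
    _ = 2 ^ n * ∏ i, w (σ (fst i)) (σ (snd i)) := by rw [sgn_sq, one_mul]

private theorem gG_single {n : ℕ} {w m : Fin (2 * n) → Fin (2 * n) → ℝ} (h : Plu m) (i : Fin n) :
    gG w m {i} = - (2 ^ n * ∑ σ : Perm (Fin (2 * n)), m (σ (fst i)) (σ (snd i)) ^ 2 *
      ∏ l ∈ univ.erase i, w (σ (fst l)) (σ (snd l))) := by
  unfold gG
  rw [Finset.mul_sum, ← Finset.sum_neg_distrib]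
  refine Finset.sum_congr rfl fun σ _ => ?_
  simp only [Finset.prod_singleton, Finset.sdiff_singleton_eq_erase, Finset.prod_mul_distrib]
  have h2 : ∀ τ : Perm (Fin (2 * n)), ((Perm.sign σ : ℤ) : ℝ) * ((Perm.sign τ : ℤ) : ℝ) *
      (-(m (σ (fst i)) (σ (snd i)) * m (τ (fst i)) (τ (snd i))) *
        ((∏ l ∈ univ.erase i, w (σ (fst l)) (σ (snd l))) *
          ∏ l ∈ univ.erase i, dl (σ (fst l)) (σ (snd l)) (τ (fst l)) (τ (snd l)))) =
      (-(((Perm.sign σ : ℤ) : ℝ) * m (σ (fst i)) (σ (snd i)) *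
        ∏ l ∈ univ.erase i, w (σ (fst l)) (σ (snd l)))) *
        (((Perm.sign τ : ℤ) : ℝ) * (m (τ (fst i)) (τ (snd i)) *
          ∏ l ∈ univ.erase i, dl (σ (fst l)) (σ (snd l)) (τ (fst l)) (τ (snd l)))) := by
    intro τ
    ring
  rw [Finset.sum_congr rfl fun τ _ => h2 τ, ← Finset.mul_sum, diag1 h.1]
  calc (-(((Perm.sign σ : ℤ) : ℝ) * m (σ (fst i)) (σ (snd i)) *
        ∏ l ∈ univ.erase i, w (σ (fst l)) (σ (snd l)))) *
        (2 ^ n * ((Perm.sign σ : ℤ) : ℝ) * m (σ (fst i)) (σ (snd i))) =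
      (((Perm.sign σ : ℤ) : ℝ) * ((Perm.sign σ : ℤ) : ℝ)) * (-(2 ^ n * (m (σ (fst i)) (σ (snd i)) ^ 2 *
        ∏ l ∈ univ.erase i, w (σ (fst l)) (σ (snd l))))) := by ring
    _ = -(2 ^ n * (m (σ (fst i)) (σ (snd i)) ^ 2 *
        ∏ l ∈ univ.erase i, w (σ (fst l)) (σ (snd l)))) := by rw [sgn_sq, one_mul]

/-- PROOF: expand `∏ i (w dl - m m)` by `Finset.prod_add` over the set `s` of the indices with the factor `- m m`. For
`s` with two different elements the sum over `σ` (for fixed `τ`) vanishes (`vanish`, `f l x y = w x y * dl x y (τ ..) (τ ..)`).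
`s = ∅`: `diag0`, the sum over `σ` of `sign σ ^ 2 2 ^ n ∏ w`. `s = {i}`: `diag1`, minus the sum over `σ` of
`2 ^ n m ^ 2 ∏ w` over the other indices. -/
theorem gb_dms {n : ℕ} {w m : Fin (2 * n) → Fin (2 * n) → ℝ} (h : Plu m) :
    gaussBonnet n (dms w m) = 2 ^ n * ∑ σ : Perm (Fin (2 * n)), ((∏ l, w (σ (fst l)) (σ (snd l))) -
      ∑ i, m (σ (fst i)) (σ (snd i)) ^ 2 * ∏ l ∈ univ.erase i, w (σ (fst l)) (σ (snd l))) := by
  classical
  rw [gG_sum]
  have hne : (∅ : Finset (Fin n)) ∉ univ.image (fun i : Fin n => ({i} : Finset (Fin n))) := by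
    intro hmem
    obtain ⟨i, -, hi⟩ := Finset.mem_image.1 hmem
    exact Finset.singleton_ne_empty i hi
  have h1 : ∑ t : Finset (Fin n), gG w m t =
      ∑ t ∈ insert ∅ (univ.image (fun i : Fin n => ({i} : Finset (Fin n)))), gG w m t := by
    symm
    refine Finset.sum_subset (Finset.subset_univ _) fun t _ ht => ?_
    rw [Finset.mem_insert, not_or] at ht
    obtain ⟨ht1, ht2⟩ := ht
    obtain ⟨i, hi⟩ := Finset.nonempty_iff_ne_empty.2 ht1
    have h3 : ∃ j ∈ t, i ≠ j := by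
      by_contra hcon
      push Not at hcon
      apply ht2
      refine Finset.mem_image.2 ⟨i, Finset.mem_univ i, ?_⟩
      ext j
      rw [Finset.mem_singleton]
      constructor
      · rintro rfl
        exact hi
      · intro hj
        exact (hcon j hj).symm
    obtain ⟨j, hj, hij⟩ := h3
    exact gG_van h hij t hi hj
  rw [h1, Finset.sum_insert hne, Finset.sum_image (fun i _ j _ hij => Finset.singleton_injective hij),
    gG_empty, Finset.sum_congr rfl fun i _ => gG_single h i, Finset.sum_neg_distrib, ← Finset.mul_sum,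
    Finset.sum_comm, Finset.sum_sub_distrib]
  ring

end H39G
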