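import Pool.Agent.Lib.H39G.D

/-! # H39G, chunk G1: alternating sums over permutations -/

set_option autoImplicit false

namespace H39G

open Finset Equiv Pool.Agent.H69Hopf

private theorem g1_step {n : ℕ} (A B : Fin n → Fin (2 * n) → Fin (2 * n) → ℝ)
    (h : ∀ i x y, A i x y = B i x y - B i y x) (s : Finset (Fin n)) {a : Fin n} (ha : a ∉ s) :
    ∑ τ : Perm (Fin (2 * n)), ((Perm.sign τ : ℤ) : ℝ) *
        ∏ i, (if i ∈ s then B i (τ (fst i)) (τ (snd i)) else A i (τ (fst i)) (τ (snd i))) =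
      2 * ∑ τ : Perm (Fin (2 * n)), ((Perm.sign τ : ℤ) : ℝ) *
        ∏ i, (if i ∈ insert a s then B i (τ (fst i)) (τ (snd i)) else A i (τ (fst i)) (τ (snd i))) := by
  classical
  obtain ⟨P, hP⟩ : ∃ P : Perm (Fin (2 * n)) → ℝ, ∀ τ, P τ = ∏ i ∈ univ.erase a,
      (if i ∈ s then B i (τ (fst i)) (τ (snd i)) else A i (τ (fst i)) (τ (snd i))) := ⟨_, fun _ => rfl⟩
  have h1 : ∀ τ : Perm (Fin (2 * n)),
      ∏ i, (if i ∈ s then B i (τ (fst i)) (τ (snd i)) else A i (τ (fst i)) (τ (snd i))) =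
        (B a (τ (fst a)) (τ (snd a)) - B a (τ (snd a)) (τ (fst a))) * P τ := by
    intro τ
    rw [← mul_prod_erase univ _ (mem_univ a), if_neg ha, h, hP]
  have h2 : ∀ τ : Perm (Fin (2 * n)),
      ∏ i, (if i ∈ insert a s then B i (τ (fst i)) (τ (snd i)) else A i (τ (fst i)) (τ (snd i))) =
        B a (τ (fst a)) (τ (snd a)) * P τ := by
    intro τ
    rw [← mul_prod_erase univ _ (mem_univ a), if_pos (mem_insert_self a s), hP]
    refine congrArg _ (prod_congr rfl fun i hi => ?_)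
    have hia : i ≠ a := (mem_erase.1 hi).1
    by_cases his : i ∈ s
    · rw [if_pos (mem_insert_of_mem his), if_pos his]
    · rw [if_neg his, if_neg fun h3 => his ((mem_insert.1 h3).resolve_left hia)]
  have hPs : ∀ τ : Perm (Fin (2 * n)), P (τ * swap (fst a) (snd a)) = P τ := by
    intro τ
    rw [hP, hP]
    refine prod_congr rfl fun i hi => ?_
    have hia : i ≠ a := (mem_erase.1 hi).1
    have h3 : (τ * swap (fst a) (snd a)) (fst i) = τ (fst i) := by
      rw [Perm.mul_apply, swap_apply_of_ne_of_ne (fun h4 => hia (fst_inj.1 h4)) (fst_ne_snd i a)]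
    have h4 : (τ * swap (fst a) (snd a)) (snd i) = τ (snd i) := by
      rw [Perm.mul_apply, swap_apply_of_ne_of_ne (fun h5 => fst_ne_snd a i h5.symm)
        (fun h5 => hia (snd_inj.1 h5))]
    rw [h3, h4]
  have h5 : ∑ τ : Perm (Fin (2 * n)), ((Perm.sign τ : ℤ) : ℝ) *
      (B a (τ (snd a)) (τ (fst a)) * P τ) =
      -∑ τ : Perm (Fin (2 * n)), ((Perm.sign τ : ℤ) : ℝ) * (B a (τ (fst a)) (τ (snd a)) * P τ) := by
    rw [← Equiv.sum_comp (Equiv.mulRight (swap (fst a) (snd a)))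
      (fun τ : Perm (Fin (2 * n)) => ((Perm.sign τ : ℤ) : ℝ) * (B a (τ (snd a)) (τ (fst a)) * P τ)),
      ← sum_neg_distrib]
    refine sum_congr rfl fun τ _ => ?_
    rw [Equiv.coe_mulRight, hPs, Perm.mul_apply, Perm.mul_apply, swap_apply_right, swap_apply_left,
      Perm.sign_mul, Perm.sign_swap (fst_ne_snd a a)]
    push_cast
    ring
  simp only [h1, h2]
  have h6 : ∀ τ : Perm (Fin (2 * n)), ((Perm.sign τ : ℤ) : ℝ) *
      ((B a (τ (fst a)) (τ (snd a)) - B a (τ (snd a)) (τ (fst a))) * P τ) =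
      ((Perm.sign τ : ℤ) : ℝ) * (B a (τ (fst a)) (τ (snd a)) * P τ) -
        ((Perm.sign τ : ℤ) : ℝ) * (B a (τ (snd a)) (τ (fst a)) * P τ) := fun τ => by ring
  rw [sum_congr rfl fun τ _ => h6 τ, sum_sub_distrib, h5]
  ring

/-- PROOF: induction over the set `s` of the indices `i` with `A i` replaced by `2 B i`: the sum with `- B i y x` at the
index `i` equals the sum with `B i x y` (substitute `τ ↦ τ * swap (fst i) (snd i)`, the sign changes, the other factors do
not: `fst_ne_snd`, `fst_inj`, `snd_inj`). So state it for `∏ i, if i ∈ s then B i .. else A i ..` with the factor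
`2 ^ s.card`. -/
theorem alt_two {n : ℕ} (A B : Fin n → Fin (2 * n) → Fin (2 * n) → ℝ) (h : ∀ i x y, A i x y = B i x y - B i y x) :
    ∑ τ : Perm (Fin (2 * n)), ((Perm.sign τ : ℤ) : ℝ) * ∏ i, A i (τ (fst i)) (τ (snd i)) =
      2 ^ n * ∑ τ : Perm (Fin (2 * n)), ((Perm.sign τ : ℤ) : ℝ) * ∏ i, B i (τ (fst i)) (τ (snd i)) := by
  classical
  have key : ∀ s : Finset (Fin n),
      ∑ τ : Perm (Fin (2 * n)), ((Perm.sign τ : ℤ) : ℝ) * ∏ i, A i (τ (fst i)) (τ (snd i)) =
      2 ^ s.card * ∑ τ : Perm (Fin (2 * n)), ((Perm.sign τ : ℤ) : ℝ) *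
        ∏ i, (if i ∈ s then B i (τ (fst i)) (τ (snd i)) else A i (τ (fst i)) (τ (snd i))) := by
    intro s
    induction s using Finset.induction_on with
    | empty => simp
    | insert a s ha ih =>
      rw [ih, g1_step A B h s ha, card_insert_of_notMem ha, pow_succ]
      ring
  have h1 := key univ
  rw [card_univ, Fintype.card_fin] at h1
  rw [h1]
  simp

end H39G
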