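import Pool.Agent.Lib.H39G.G1

/-! # H39G, chunk G2: the terms with at most one factor `m ⊗ m` -/

set_option autoImplicit false

namespace H39G

open Finset Equiv Pool.Agent.H69Hopf

/-- PROOF: `alt_two` with `B i x y = [σ (fst i) = x] [σ (snd i) = y]`; the product of the `B i` is `1` for `τ = σ` and
`0` otherwise (`exists_fst_or_snd`). -/
theorem diag0 {n : ℕ} (σ : Perm (Fin (2 * n))) :
    ∑ τ : Perm (Fin (2 * n)), ((Perm.sign τ : ℤ) : ℝ) *
      ∏ i, dl (σ (fst i)) (σ (snd i)) (τ (fst i)) (τ (snd i)) = 2 ^ n * ((Perm.sign σ : ℤ) : ℝ) := by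
  have h1 := alt_two (n := n) (fun i x y => dl (σ (fst i)) (σ (snd i)) x y)
    (fun i x y => (if σ (fst i) = x then (1 : ℝ) else 0) * (if σ (snd i) = y then 1 else 0))
    (fun i x y => by unfold dl; ring)
  rw [h1]
  congr 1
  rw [Finset.sum_eq_single σ]
  · rw [Finset.prod_eq_one]
    · rw [mul_one]
    · intro i _
      simp
  · intro τ _ hτ
    have h2 : ∃ r, σ r ≠ τ r := by
      by_contra hc
      push Not at hc
      exact hτ (Equiv.ext fun r => (hc r).symm)
    obtain ⟨r, hr⟩ := h2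
    obtain ⟨i, hi | hi⟩ := exists_fst_or_snd r
    · rw [Finset.prod_eq_zero (Finset.mem_univ i), mul_zero]
      rw [← hi, if_neg hr, zero_mul]
    · rw [Finset.prod_eq_zero (Finset.mem_univ i), mul_zero]
      rw [← hi, if_neg hr, mul_zero]
  · intro h
    exact absurd (Finset.mem_univ σ) h

private theorem perm_two {N : ℕ} (π : Perm (Fin N)) (a b : Fin N) (h : ∀ r, r ≠ a → r ≠ b → π r = r) :
    π = 1 ∨ π = swap a b := by
  have ha : π a = a ∨ π a = b := by
    by_contra hc
    push Not at hc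
    have h1 := h (π a) hc.1 hc.2
    exact hc.1 (π.injective h1)
  have hb : π b = a ∨ π b = b := by
    by_contra hc
    push Not at hc
    have h1 := h (π b) hc.1 hc.2
    exact hc.2 (π.injective h1)
  rcases ha with ha | ha
  · left
    ext r
    by_cases hra : r = a
    · rw [hra, ha]; rfl
    by_cases hrb : r = b
    · rw [hrb]
      rcases hb with hb | hb
      · have h2 : a = b := π.injective (by rw [ha, hb])
        rw [hb, h2]; rfl
      · rw [hb]; rfl
    · rw [h r hra hrb]; rfl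
  · right
    ext r
    by_cases hra : r = a
    · rw [hra, ha, swap_apply_left]
    by_cases hrb : r = b
    · rw [hrb, swap_apply_right]
      rcases hb with hb | hb
      · rw [hb]
      · have h2 : a = b := π.injective (by rw [ha, hb])
        rw [hb, h2]
    · rw [h r hra hrb, swap_apply_of_ne_of_ne hra hrb]

/-- PROOF: `alt_two` with `B i x y = [σ (fst i) = x] [σ (snd i) = y]` for `i ≠ i0` and `B i0 = m / 2`; the product of the
`B i` is `0` unless `τ = σ` or `τ = σ * swap (fst i0) (snd i0)`, where it is `m (σ (fst i0)) (σ (snd i0)) / 2` and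
`m (σ (snd i0)) (σ (fst i0)) / 2`, with opposite signs. -/
theorem diag1 {n : ℕ} {m : Fin (2 * n) → Fin (2 * n) → ℝ} (hm : ∀ i j, m j i = - m i j) (σ : Perm (Fin (2 * n)))
    (i0 : Fin n) :
    ∑ τ : Perm (Fin (2 * n)), ((Perm.sign τ : ℤ) : ℝ) * (m (τ (fst i0)) (τ (snd i0)) *
      ∏ i ∈ univ.erase i0, dl (σ (fst i)) (σ (snd i)) (τ (fst i)) (τ (snd i))) =
      2 ^ n * ((Perm.sign σ : ℤ) : ℝ) * m (σ (fst i0)) (σ (snd i0)) := by
  obtain ⟨B, hB⟩ : ∃ B : Fin n → Fin (2 * n) → Fin (2 * n) → ℝ, B = fun i x y =>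
      if i = i0 then m x y / 2 else
        (if σ (fst i) = x then (1 : ℝ) else 0) * (if σ (snd i) = y then 1 else 0) := ⟨_, rfl⟩
  have hB0 : ∀ x y, B i0 x y = m x y / 2 := fun x y => by rw [hB]; exact if_pos rfl
  have hB1 : ∀ i, i ≠ i0 → ∀ x y, B i x y =
      (if σ (fst i) = x then (1 : ℝ) else 0) * (if σ (snd i) = y then 1 else 0) := fun i hi x y => by
    rw [hB]; exact if_neg hi
  have h1 := alt_two (n := n) (fun i x y => if i = i0 then m x y else dl (σ (fst i)) (σ (snd i)) x y) B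
    (fun i x y => by
      by_cases hi : i = i0
      · rw [if_pos hi, hi, hB0, hB0, hm x y]
        ring
      · rw [if_neg hi, hB1 i hi, hB1 i hi]
        unfold dl
        ring)
  have h2 : ∀ τ : Perm (Fin (2 * n)), (∏ i, (if i = i0 then m (τ (fst i)) (τ (snd i)) else
      dl (σ (fst i)) (σ (snd i)) (τ (fst i)) (τ (snd i)))) = m (τ (fst i0)) (τ (snd i0)) *
      ∏ i ∈ univ.erase i0, dl (σ (fst i)) (σ (snd i)) (τ (fst i)) (τ (snd i)) := by
    intro τ
    rw [← Finset.mul_prod_erase univ _ (Finset.mem_univ i0), if_pos rfl]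
    congr 1
    refine Finset.prod_congr rfl fun i hi => ?_
    rw [if_neg (Finset.ne_of_mem_erase hi)]
  have h3 : ∑ τ : Perm (Fin (2 * n)), ((Perm.sign τ : ℤ) : ℝ) * (m (τ (fst i0)) (τ (snd i0)) *
      ∏ i ∈ univ.erase i0, dl (σ (fst i)) (σ (snd i)) (τ (fst i)) (τ (snd i))) =
      2 ^ n * ∑ τ : Perm (Fin (2 * n)), ((Perm.sign τ : ℤ) : ℝ) * ∏ i, B i (τ (fst i)) (τ (snd i)) := by
    rw [← h1]
    refine Finset.sum_congr rfl fun τ _ => ?_
    rw [← h2]
  rw [h3, mul_assoc]
  congr 1
  have hfs : fst i0 ≠ snd i0 := fst_ne_snd i0 i0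
  have hne : σ ≠ σ * swap (fst i0) (snd i0) := by
    intro h
    have h4 : swap (fst i0) (snd i0) = (1 : Perm (Fin (2 * n))) := by
      have h5 : σ * 1 = σ * swap (fst i0) (snd i0) := by rw [mul_one]; exact h
      exact (mul_left_cancel h5).symm
    have h6 := congrArg (fun π : Perm (Fin (2 * n)) => π (fst i0)) h4
    simp only [swap_apply_left, Perm.coe_one, id_eq] at h6
    exact hfs h6.symm
  have hout : ∀ τ ∈ (univ : Finset (Perm (Fin (2 * n)))), τ ∉ ({σ, σ * swap (fst i0) (snd i0)} : Finset _) →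
      ((Perm.sign τ : ℤ) : ℝ) * ∏ i, B i (τ (fst i)) (τ (snd i)) = 0 := by
    intro τ _ hτ
    by_contra hne0
    apply hτ
    have h5 : ∀ i, i ≠ i0 → σ (fst i) = τ (fst i) ∧ σ (snd i) = τ (snd i) := by
      intro i hi
      by_contra hc
      apply hne0
      rw [Finset.prod_eq_zero (Finset.mem_univ i), mul_zero]
      rw [hB1 i hi]
      by_cases h6 : σ (fst i) = τ (fst i)
      · have h7 : ¬ σ (snd i) = τ (snd i) := fun h => hc ⟨h6, h⟩
        rw [if_neg h7, mul_zero]
      · rw [if_neg h6, zero_mul]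
    have h8 := perm_two (σ⁻¹ * τ) (fst i0) (snd i0) (fun r hr1 hr2 => by
      rw [Perm.mul_apply, Perm.inv_eq_iff_eq]
      obtain ⟨i, hi | hi⟩ := exists_fst_or_snd r
      · have hii : i ≠ i0 := fun h => hr1 (by rw [hi, h])
        rw [hi]
        exact (h5 i hii).1.symm
      · have hii : i ≠ i0 := fun h => hr2 (by rw [hi, h])
        rw [hi]
        exact (h5 i hii).2.symm)
    rcases h8 with h8 | h8
    · have h9 : τ = σ := by
        have := congrArg (fun π => σ * π) h8
        simpa using this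
      rw [h9]
      exact Finset.mem_insert_self _ _
    · have h9 : τ = σ * swap (fst i0) (snd i0) := by
        have := congrArg (fun π => σ * π) h8
        simpa using this
      rw [h9]
      exact Finset.mem_insert_of_mem (Finset.mem_singleton_self _)
  rw [← Finset.sum_subset (Finset.subset_univ ({σ, σ * swap (fst i0) (snd i0)} : Finset _)) hout,
    Finset.sum_pair hne]
  have e1 : (∏ i, B i (σ (fst i)) (σ (snd i))) = m (σ (fst i0)) (σ (snd i0)) / 2 := by
    rw [← Finset.mul_prod_erase univ _ (Finset.mem_univ i0), hB0, Finset.prod_eq_one, mul_one]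
    intro i hi
    rw [hB1 i (Finset.ne_of_mem_erase hi)]
    simp
  have e2 : (∏ i, B i ((σ * swap (fst i0) (snd i0)) (fst i)) ((σ * swap (fst i0) (snd i0)) (snd i))) =
      m (σ (snd i0)) (σ (fst i0)) / 2 := by
    rw [← Finset.mul_prod_erase univ _ (Finset.mem_univ i0), hB0, Finset.prod_eq_one, mul_one]
    · rw [Perm.mul_apply, Perm.mul_apply, swap_apply_left, swap_apply_right]
    · intro i hi
      have hi' := Finset.ne_of_mem_erase hi
      have f1 : swap (fst i0) (snd i0) (fst i) = fst i :=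
        swap_apply_of_ne_of_ne (fun h => hi' (fst_inj.1 h)) (fst_ne_snd _ _)
      have f2 : swap (fst i0) (snd i0) (snd i) = snd i :=
        swap_apply_of_ne_of_ne (fst_ne_snd _ _).symm (fun h => hi' (snd_inj.1 h))
      rw [hB1 i hi', Perm.mul_apply, Perm.mul_apply, f1, f2]
      simp
  have e3 : ((Perm.sign (σ * swap (fst i0) (snd i0)) : ℤ) : ℝ) = - ((Perm.sign σ : ℤ) : ℝ) := by
    rw [Perm.sign_mul, Perm.sign_swap hfs]
    push_cast
    ring
  rw [e1, e2, e3, hm (σ (fst i0)) (σ (snd i0))]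
  ring

end H39G
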