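import Pool.Agent.Lib.H39G.D

/-! # H39G, chunk K: the condition on the planes through the basis vectors -/

set_option autoImplicit false

namespace H39G

open Finset Equiv Pool.Agent.H69Hopf

/-- Ka. PROOF: only the terms with the first and third index `i` remain; `m i i = 0`. -/
theorem ev_dms {N : ℕ} {w m : Fin N → Fin N → ℝ} (h : Plu m) (i : Fin N) (y : Fin N → ℝ) :
    ev (dms w m) (Pi.single i 1) y (Pi.single i 1) y = ∑ j ∈ univ.erase i, w i j * y j ^ 2 - (∑ j, m i j * y j) ^ 2 := by
  have h1 : ev (dms w m) (Pi.single i 1) y (Pi.single i 1) y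
      = ∑ b, ∑ d, dms w m i b i d * y b * y d := by
    unfold ev
    rw [Finset.sum_eq_single i]
    · refine Finset.sum_congr rfl fun b _ => ?_
      rw [Finset.sum_eq_single i]
      · refine Finset.sum_congr rfl fun d _ => ?_
        rw [Pi.single_eq_same]
        ring
      · intro c _ hc
        refine Finset.sum_eq_zero fun d _ => ?_
        rw [Pi.single_eq_of_ne hc]
        ring
      · intro hi
        exact absurd (Finset.mem_univ i) hi
    · intro a _ ha
      refine Finset.sum_eq_zero fun b _ => Finset.sum_eq_zero fun c _ => Finset.sum_eq_zero fun d _ => ?_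
      rw [Pi.single_eq_of_ne ha]
      ring
    · intro hi
      exact absurd (Finset.mem_univ i) hi
  rw [h1]
  have h2 : ∀ b, ∑ d, dms w m i b i d * y b * y d
      = (if b = i then 0 else w i b * y b ^ 2) - (m i b * y b) * ∑ d, m i d * y d := by
    intro b
    have h3 : ∀ d, dms w m i b i d * y b * y d
        = w i b * y b * (if b = d then y d else 0) - w i b * y b * (if i = d then (if b = i then y d else 0) else 0)
          - (m i b * y b) * (m i d * y d) := by
      intro d
      unfold dms dl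
      rw [if_pos rfl]
      by_cases hbd : b = d <;> by_cases hid : i = d <;> by_cases hbi : b = i <;> simp [hbd, hid, hbi] <;> ring
    rw [Finset.sum_congr rfl fun d _ => h3 d, Finset.sum_sub_distrib, Finset.sum_sub_distrib,
      ← Finset.mul_sum, ← Finset.mul_sum, ← Finset.mul_sum, Finset.sum_ite_eq, Finset.sum_ite_eq,
      if_pos (Finset.mem_univ b), if_pos (Finset.mem_univ i)]
    by_cases hbi : b = i
    · rw [if_pos hbi, if_pos hbi, hbi]
      ring
    · rw [if_neg hbi, if_neg hbi]
      ring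
  rw [Finset.sum_congr rfl fun b _ => h2 b, Finset.sum_sub_distrib, ← Finset.sum_mul, ← sq]
  congr 1
  rw [← Finset.add_sum_erase _ _ (Finset.mem_univ i), if_pos rfl, zero_add]
  refine Finset.sum_congr rfl fun j hj => ?_
  rw [if_neg (Finset.ne_of_mem_erase hj)]

private theorem K_plane {N : ℕ} {w m : Fin N → Fin N → ℝ} (h : Plu m) {i j : Fin N} (hij : i ≠ j) :
    ev (dms w m) (Pi.single i 1) (Pi.single j 1) (Pi.single i 1) (Pi.single j 1) = w i j - m i j ^ 2 := by
  rw [ev_dms h]
  congr 1
  · rw [Finset.sum_eq_single j]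
    · rw [Pi.single_eq_same]; ring
    · intro k _ hk
      rw [Pi.single_eq_of_ne hk]; ring
    · intro hj
      exact absurd (Finset.mem_erase.mpr ⟨hij.symm, Finset.mem_univ j⟩) hj
  · congr 1
    rw [Finset.sum_eq_single j]
    · rw [Pi.single_eq_same]; ring
    · intro k _ hk
      rw [Pi.single_eq_of_ne hk]; ring
    · intro hj
      exact absurd (Finset.mem_univ j) hj

/-- The weights with zero diagonal. -/
private def Kw {N : ℕ} (w : Fin N → Fin N → ℝ) (i j : Fin N) : ℝ := if i = j then 0 else w i j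

/-- The numbers `lam`. -/
private noncomputable def Kl {N : ℕ} (w m : Fin N → Fin N → ℝ) (i j : Fin N) : ℝ :=
  if i = j then 0 else m i j ^ 2 / w i j

private theorem K_dat {N : ℕ} {w m : Fin N → Fin N → ℝ} (h : Plu m) (hw : ∀ i j, w i j = w j i)
    (hle : ∀ i j, i ≠ j → m i j ^ 2 ≤ w i j) :
    Dat (Kw w) m (Kl w m) ∧ dms (Kw w) m = dms w m := by
  have hm0 : ∀ i, m i i = 0 := by
    intro i
    have := h.1 i i
    linarith
  refine ⟨⟨h, ?_, ?_, ?_, ?_, ?_, ?_⟩, ?_⟩
  · intro i j
    unfold Kw
    split_ifs with hij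
    · exact le_rfl
    · exact (sq_nonneg _).trans (hle i j hij)
  · intro i j
    unfold Kw
    by_cases hij : i = j
    · rw [if_pos hij, if_pos hij.symm]
    · rw [if_neg hij, if_neg (Ne.symm hij)]; exact hw i j
  · intro i j
    unfold Kl
    split_ifs with hij
    · exact le_rfl
    · exact div_nonneg (sq_nonneg _) ((sq_nonneg _).trans (hle i j hij))
  · intro i j
    unfold Kl
    by_cases hij : i = j
    · rw [if_pos hij, if_pos hij.symm]
    · rw [if_neg hij, if_neg (Ne.symm hij), hw i j, h.1 i j, neg_sq]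
  · intro i
    unfold Kl
    rw [if_pos rfl]
  · intro i j
    unfold Kl Kw
    by_cases hij : i = j
    · rw [if_pos hij, if_pos hij, hij, hm0]; ring
    · rw [if_neg hij, if_neg hij]
      by_cases h0 : w i j = 0
      · have := hle i j hij
        have h1 : m i j ^ 2 = 0 := le_antisymm (by linarith) (sq_nonneg _)
        rw [h1, h0]; ring
      · exact div_mul_cancel₀ _ h0
  · funext i j k l
    unfold dms Kw
    by_cases hij : i = j
    · subst hij
      unfold dl
      rw [if_pos rfl]
      ring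
    · rw [if_neg hij]

private theorem K_ev {N : ℕ} {w m : Fin N → Fin N → ℝ} (h : Plu m)
    (i : Fin N) :
    ev (dms w m) (Pi.single i 1) (fun j => if i = j then 0 else m i j / w i j) (Pi.single i 1)
      (fun j => if i = j then 0 else m i j / w i j) = ∑ j, Kl w m i j - (∑ j, Kl w m i j) ^ 2 := by
  rw [ev_dms h]
  congr 1
  · rw [← Finset.add_sum_erase _ _ (Finset.mem_univ i)]
    unfold Kl
    rw [if_pos rfl, zero_add]
    refine Finset.sum_congr rfl fun j hj => ?_
    have hij : i ≠ j := (Finset.ne_of_mem_erase hj).symm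
    rw [if_neg hij, if_neg hij]
    by_cases h0 : w i j = 0
    · rw [h0]; simp
    · field_simp
  · congr 1
    refine Finset.sum_congr rfl fun j _ => ?_
    unfold Kl
    by_cases hij : i = j
    · rw [if_pos hij, if_pos hij]; ring
    · rw [if_neg hij, if_neg hij]; ring

/-- Kb. The numbers `lam i j = m i j ^ 2 / w i j` (`i ≠ j`; `w i j = 0` gives `m i j = 0`). PROOF: `y = e_j`:
`m i j ^ 2 ≤ w i j`; `y j = m i j / w i j`, `y i = 0`: `S ^ 2 ≤ S`, `S = ∑ j, lam i j`, so `S ≤ 1`. `w' = w` off the diagonal,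
`0` on it. -/
theorem exists_lam {N : ℕ} {w m : Fin N → Fin N → ℝ} (h : Plu m) (hw : ∀ i j, w i j = w j i)
    (hK : ∀ (i : Fin N) (y : Fin N → ℝ), 0 ≤ ev (dms w m) (Pi.single i 1) y (Pi.single i 1) y) :
    ∃ w' lam : Fin N → Fin N → ℝ, Dat w' m lam ∧ dms w' m = dms w m ∧ ∀ i, ∑ j, lam i j ≤ 1 := by
  have hle : ∀ i j, i ≠ j → m i j ^ 2 ≤ w i j := by
    intro i j hij
    have := hK i (Pi.single j 1)
    rw [K_plane h hij] at this
    linarith
  obtain ⟨hd, he⟩ := K_dat h hw hle
  refine ⟨Kw w, Kl w m, hd, he, fun i => ?_⟩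
  have h1 := hK i (fun j => if i = j then 0 else m i j / w i j)
  rw [K_ev h] at h1
  by_contra hcon
  push Not at hcon
  nlinarith

/-- Kc. Strict form. PROOF: `y = e_j`: `w i j > m i j ^ 2`; `y j = m i j / w i j`: if `S > 0` then `y ≠ 0` and `y` is not a
multiple of `e_i`, `S ^ 2 < S`, `S < 1`. `ρ` is the largest of the sums (and `0`). -/
theorem exists_lam_strict {N : ℕ} {w m : Fin N → Fin N → ℝ} (h : Plu m) (hw : ∀ i j, w i j = w j i)
    (hK : ∀ (i : Fin N) (y : Fin N → ℝ), y i = 0 → y ≠ 0 → 0 < ev (dms w m) (Pi.single i 1) y (Pi.single i 1) y) :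
    ∃ (w' lam : Fin N → Fin N → ℝ) (ρ : ℝ), Dat w' m lam ∧ dms w' m = dms w m ∧ 0 ≤ ρ ∧ ρ < 1 ∧
      (∀ i, ∑ j, lam i j ≤ ρ) ∧ ∀ i j, i ≠ j → 0 < w' i j := by
  have hlt : ∀ i j, i ≠ j → m i j ^ 2 < w i j := by
    intro i j hij
    have h1 := hK i (Pi.single j 1) (Pi.single_eq_of_ne hij 1) (by
      intro h0
      have := congrFun h0 j
      rw [Pi.single_eq_same] at this
      exact one_ne_zero this)
    rw [K_plane h hij] at h1
    linarith
  obtain ⟨hd, he⟩ := K_dat h hw fun i j hij => (hlt i j hij).le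
  have hS0 : ∀ i, 0 ≤ ∑ j, Kl w m i j := fun i => Finset.sum_nonneg fun j _ => hd.l0 i j
  have hS : ∀ i, ∑ j, Kl w m i j < 1 := by
    intro i
    by_cases hz : (fun j => if i = j then 0 else m i j / w i j) = (0 : Fin N → ℝ)
    · have h0 : ∑ j, Kl w m i j = 0 := by
        refine Finset.sum_eq_zero fun j _ => ?_
        have h1 := congrFun hz j
        unfold Kl
        by_cases hij : i = j
        · rw [if_pos hij]
        · rw [if_neg hij]
          simp only [if_neg hij, Pi.zero_apply] at h1
          rw [sq, mul_div_assoc, h1, mul_zero]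
      rw [h0]
      exact one_pos
    · have h1 := hK i _ (if_pos rfl) hz
      rw [K_ev h] at h1
      by_contra hcon
      push Not at hcon
      nlinarith
  have hw' : ∀ i j, i ≠ j → 0 < Kw w i j := by
    intro i j hij
    unfold Kw
    rw [if_neg hij]
    exact (sq_nonneg _).trans_lt (hlt i j hij)
  rcases isEmpty_or_nonempty (Fin N) with hN | hN
  · exact ⟨Kw w, Kl w m, 0, hd, he, le_rfl, one_pos, fun i => hN.elim i, hw'⟩
  · obtain ⟨i0, hi0⟩ := Finite.exists_max fun i => ∑ j, Kl w m i j
    exact ⟨Kw w, Kl w m, ∑ j, Kl w m i0 j, hd, he, hS0 i0, hS i0, hi0, hw'⟩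

end H39G
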