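import Mathlib

/-! # H39G, chunk L: the local inequality -/

set_option autoImplicit false

namespace H39G

/-- La. PROOF: `u = b (L + b) / (a + g - b) > 0`, `v = g (L + g) / (a + b - g) > 0`;
`x ^ 2 ≤ (|y| + |z|) ^ 2 ≤ (y ^ 2 / u + z ^ 2 / v) (u + v)` (the difference is `(v |y| - u |z|) ^ 2 / (u v)`), and
`(a - b - g) u ≤ b (L + b)`, `(a - b - g) v ≤ g (L + g)`, `b (L + b) + g (L + g) ≤ a (L + a)`. -/
theorem core {a b g L x y z : ℝ} (hb : 0 < b) (hg : 0 < g) (hL : 0 ≤ L) (hab : b + g < a) (hx : |x| ≤ |y| + |z|) :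
    x ^ 2 * (a - b - g) / (a * (L + a)) ≤
      y ^ 2 * (a + g - b) / (b * (L + b)) + z ^ 2 * (a + b - g) / (g * (L + g)) := by
  have h1 : 0 < a + g - b := by linarith
  have h2 : 0 < a + b - g := by linarith
  have hbL : 0 < b * (L + b) := by positivity
  have hgL : 0 < g * (L + g) := by positivity
  have ha : 0 < a := by linarith
  have haL : 0 < a * (L + a) := by positivity
  obtain ⟨u, hu⟩ : ∃ u, u = b * (L + b) / (a + g - b) := ⟨_, rfl⟩
  obtain ⟨v, hv⟩ : ∃ v, v = g * (L + g) / (a + b - g) := ⟨_, rfl⟩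
  have hu0 : 0 < u := by rw [hu]; exact div_pos hbL h1
  have hv0 : 0 < v := by rw [hv]; exact div_pos hgL h2
  have hu1 : u * (a + g - b) = b * (L + b) := by rw [hu]; field_simp
  have hv1 : v * (a + b - g) = g * (L + g) := by rw [hv]; field_simp
  have e1 : y ^ 2 * (a + g - b) / (b * (L + b)) = y ^ 2 / u := by
    rw [← hu1]
    field_simp
  have e2 : z ^ 2 * (a + b - g) / (g * (L + g)) = z ^ 2 / v := by
    rw [← hv1]
    field_simp
  rw [e1, e2]
  have h3 : (|y| + |z|) ^ 2 ≤ (y ^ 2 / u + z ^ 2 / v) * (u + v) := by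
    have h4 : (y ^ 2 / u + z ^ 2 / v) * (u + v) - (|y| + |z|) ^ 2
        = (v * |y| - u * |z|) ^ 2 / (u * v) := by
      rw [← sq_abs y, ← sq_abs z]
      field_simp
      ring
    have h5 : 0 ≤ (v * |y| - u * |z|) ^ 2 / (u * v) := by positivity
    linarith
  have h6 : x ^ 2 ≤ (|y| + |z|) ^ 2 := by
    rw [← sq_abs x]
    exact pow_le_pow_left₀ (abs_nonneg x) hx 2
  have h7 : (u + v) * (a - b - g) ≤ a * (L + a) := by
    have h8 : u * (a - b - g) ≤ u * (a + g - b) := by
      apply mul_le_mul_of_nonneg_left _ hu0.le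
      linarith
    have h9 : v * (a - b - g) ≤ v * (a + b - g) := by
      apply mul_le_mul_of_nonneg_left _ hv0.le
      linarith
    have h10 : b * (L + b) + g * (L + g) ≤ a * (L + a) := by
      have h11 : b ^ 2 + g ^ 2 ≤ a ^ 2 := by nlinarith
      nlinarith [mul_nonneg hL (by linarith : (0 : ℝ) ≤ a - b - g)]
    rw [add_mul]
    linarith
  have hq : 0 ≤ y ^ 2 / u + z ^ 2 / v := by positivity
  rw [div_le_iff₀ haL]
  have h12 : 0 ≤ a - b - g := by linarith
  calc x ^ 2 * (a - b - g) ≤ ((y ^ 2 / u + z ^ 2 / v) * (u + v)) * (a - b - g) :=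
        mul_le_mul_of_nonneg_right (h6.trans h3) h12
    _ = (y ^ 2 / u + z ^ 2 / v) * ((u + v) * (a - b - g)) := by ring
    _ ≤ (y ^ 2 / u + z ^ 2 / v) * (a * (L + a)) := mul_le_mul_of_nonneg_left h7 hq

private theorem l_one {a g L x z : ℝ} (hg : 0 < g) (hL : 0 ≤ L) (hab : g < a) (hx : |x| ≤ |z|) :
    x ^ 2 * (a - g) / (a * (L + a)) ≤ z ^ 2 * (a - g) / (g * (L + g)) := by
  have ha : 0 < a := by linarith
  have h1 : x ^ 2 ≤ z ^ 2 := sq_le_sq.2 hx
  have h2 : g * (L + g) ≤ a * (L + a) := by nlinarith [mul_nonneg hL (by linarith : (0 : ℝ) ≤ a - g)]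
  have h3 : 0 ≤ a - g := by linarith
  apply div_le_div₀
  · positivity
  · exact mul_le_mul_of_nonneg_right h1 h3
  · positivity
  · exact h2

private theorem l_core {a b g L x y z : ℝ} (hb : 0 ≤ b) (hg : 0 ≤ g) (hL : 0 ≤ L)
    (hab : b + g < a) (hx : |x| ≤ |y| + |z|) (hy : b = 0 → y = 0) (hz : g = 0 → z = 0) :
    0 ≤ x ^ 2 * (b + g - a) / (a * (L + a)) + y ^ 2 * (a + g - b) / (b * (L + b)) +
      z ^ 2 * (a + b - g) / (g * (L + g)) := by
  have e0 : x ^ 2 * (b + g - a) / (a * (L + a)) = -(x ^ 2 * (a - b - g) / (a * (L + a))) := by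
    rw [← neg_div]
    congr 1
    ring
  rw [e0]
  rcases hb.eq_or_lt with hb0 | hb0
  · have hy0 := hy hb0.symm
    rcases hg.eq_or_lt with hg0 | hg0
    · have hz0 := hz hg0.symm
      have hx0 : x = 0 := by
        rw [hy0, hz0, abs_zero, add_zero] at hx
        exact abs_eq_zero.1 (le_antisymm hx (abs_nonneg x))
      rw [hx0, hy0, hz0]
      simp
    · rw [hy0, abs_zero, zero_add] at hx
      subst hb0
      have hag : g < a := by linarith
      have h1 := l_one (L := L) hg0 hL hag hx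
      rw [hy0]
      have e1 : a - 0 - g = a - g := by ring
      have e2 : a + 0 - g = a - g := by ring
      rw [e1, e2]
      have e3 : (0 : ℝ) ^ 2 * (a + g - 0) / (0 * (L + 0)) = 0 := by simp
      rw [e3]
      linarith
  · rcases hg.eq_or_lt with hg0 | hg0
    · have hz0 := hz hg0.symm
      rw [hz0, abs_zero, add_zero] at hx
      subst hg0
      have hag : b < a := by linarith
      have h1 := l_one (L := L) hb0 hL hag hx
      rw [hz0]
      have e1 : a - b - 0 = a - b := by ring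
      have e2 : a + 0 - b = a - b := by ring
      rw [e1, e2]
      have e3 : (0 : ℝ) ^ 2 * (a + b - 0) / (0 * (L + 0)) = 0 := by simp
      rw [e3]
      linarith
    · have h1 := core hb0 hg0 hL hab hx
      linarith

private theorem l_term {p p' P x s L : ℝ} (hp : 0 ≤ p) (hp' : 0 ≤ p') (hP : 0 ≤ P) (hL : 0 ≤ L)
    (hs : 0 ≤ s) (hx : x ^ 2 = p * p' * P) :
    x ^ 2 * (s - (p + p')) / ((p + p') * (L + (p + p'))) ≤
      P * (((p + p') * s / 4 - p * p') / (L + p + p')) := by
  have e0 : L + p + p' = L + (p + p') := by ring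
  rw [e0]
  rcases (add_nonneg hp hp').eq_or_lt with h0 | h0
  · have hp0 : p = 0 := by linarith
    have hp0' : p' = 0 := by linarith
    rw [hp0, hp0']
    simp
  · have hLa : 0 < L + (p + p') := by linarith
    rw [hx]
    have h1 : P * (((p + p') * s / 4 - p * p') / (L + (p + p'))) -
        p * p' * P * (s - (p + p')) / ((p + p') * (L + (p + p'))) =
        P * s * ((p - p') ^ 2 / 4) / ((p + p') * (L + (p + p'))) := by
      field_simp
      ring
    have h2 : 0 ≤ P * s * ((p - p') ^ 2 / 4) / ((p + p') * (L + (p + p'))) := by positivity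
    linarith

private theorem l_zero {p p' P x : ℝ} (hp : 0 ≤ p) (hp' : 0 ≤ p') (hx : x ^ 2 = p * p' * P)
    (h : p + p' = 0) : x = 0 := by
  have hp0 : p = 0 := by linarith
  rw [hp0, zero_mul, zero_mul] at hx
  exact pow_eq_zero_iff (two_ne_zero) |>.1 hx

/-- Lb. With `a = p + p'`, `b = q + q'`, `g = r + r'`: each term is at least `x ^ 2 (b + g - a) / (a (L + a))` etc.
(`p p' ≤ a ^ 2 / 4`; if `p p' = 0` then `x = 0`; `x ^ 2 = p p' P`). Their sum is `≥ 0`: trivial if `a ≤ b + g`, `b ≤ a + g`,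
`g ≤ a + b`; otherwise `core` for the largest of the three (`|x| ≤ |y| + |z|` etc. from `x - y + z = 0`; if for instance
`b = 0` then `y = 0`, and `x = - z` and `1 / (a (L + a)) ≤ 1 / (g (L + g))`; if moreover `g = 0` all are `0`). -/
theorem local3 {p p' q q' r r' P Q R x y z L : ℝ} (hp : 0 ≤ p) (hp' : 0 ≤ p') (hq : 0 ≤ q) (hq' : 0 ≤ q') (hr : 0 ≤ r)
    (hr' : 0 ≤ r') (hP : 0 ≤ P) (hQ : 0 ≤ Q) (hR : 0 ≤ R) (hL : 0 ≤ L) (hx : x ^ 2 = p * p' * P)
    (hy : y ^ 2 = q * q' * Q) (hz : z ^ 2 = r * r' * R) (hxyz : x - y + z = 0) :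
    0 ≤ P * (((p + p') * (q + q' + r + r') / 4 - p * p') / (L + p + p')) +
      Q * (((q + q') * (p + p' + r + r') / 4 - q * q') / (L + q + q')) +
      R * (((r + r') * (p + p' + q + q') / 4 - r * r') / (L + r + r')) := by
  have t1 := l_term (s := q + q' + r + r') hp hp' hP hL (by linarith) hx
  have t2 := l_term (s := p + p' + r + r') hq hq' hQ hL (by linarith) hy
  have t3 := l_term (s := p + p' + q + q') hr hr' hR hL (by linarith) hz
  have x0 := l_zero hp hp' hx
  have y0 := l_zero hq hq' hy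
  have z0 := l_zero hr hr' hz
  obtain ⟨a, ha⟩ : ∃ a, a = p + p' := ⟨_, rfl⟩
  obtain ⟨b, hb⟩ : ∃ b, b = q + q' := ⟨_, rfl⟩
  obtain ⟨g, hg⟩ : ∃ g, g = r + r' := ⟨_, rfl⟩
  have ha0 : 0 ≤ a := by linarith
  have hb0 : 0 ≤ b := by linarith
  have hg0 : 0 ≤ g := by linarith
  have e1 : q + q' + r + r' - (p + p') = b + g - a := by rw [ha, hb, hg]; ring
  have e2 : p + p' + r + r' - (q + q') = a + g - b := by rw [ha, hb, hg]; ring
  have e3 : p + p' + q + q' - (r + r') = a + b - g := by rw [ha, hb, hg]; ring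
  have E1 : x ^ 2 * (q + q' + r + r' - (p + p')) / ((p + p') * (L + (p + p'))) =
      x ^ 2 * (b + g - a) / (a * (L + a)) := by rw [e1, ← ha]
  have E2 : y ^ 2 * (p + p' + r + r' - (q + q')) / ((q + q') * (L + (q + q'))) =
      y ^ 2 * (a + g - b) / (b * (L + b)) := by rw [e2, ← hb]
  have E3 : z ^ 2 * (p + p' + q + q' - (r + r')) / ((r + r') * (L + (r + r'))) =
      z ^ 2 * (a + b - g) / (g * (L + g)) := by rw [e3, ← hg]
  rw [E1] at t1
  rw [E2] at t2
  rw [E3] at t3
  rw [← ha] at x0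
  rw [← hb] at y0
  rw [← hg] at z0
  have key : 0 ≤ x ^ 2 * (b + g - a) / (a * (L + a)) + y ^ 2 * (a + g - b) / (b * (L + b)) +
      z ^ 2 * (a + b - g) / (g * (L + g)) := by
    by_cases c1 : b + g < a
    · refine l_core hb0 hg0 hL c1 ?_ y0 z0
      have h1 : x = y - z := by linarith
      rw [h1]
      exact abs_sub y z
    · by_cases c2 : a + g < b
      · have h1 : |y| ≤ |x| + |z| := by
          have h2 : y = x + z := by linarith
          rw [h2]
          exact abs_add_le x z
        have h3 := l_core ha0 hg0 hL c2 h1 x0 z0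
        have e4 : b + a - g = a + b - g := by ring
        have e5 : b + g - a = b + g - a := rfl
        rw [e4] at h3
        linarith
      · by_cases c3 : a + b < g
        · have h1 : |z| ≤ |x| + |y| := by
            have h2 : z = y - x := by linarith
            rw [h2]
            calc |y - x| ≤ |y| + |x| := abs_sub y x
              _ = |x| + |y| := add_comm _ _
          have h3 := l_core ha0 hb0 hL c3 h1 x0 y0
          have e4 : g + b - a = b + g - a := by ring
          have e5 : g + a - b = a + g - b := by ring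
          rw [e4, e5] at h3
          linarith
        · have h1 : 0 ≤ b + g - a := by linarith
          have h2 : 0 ≤ a + g - b := by linarith
          have h3 : 0 ≤ a + b - g := by linarith
          have h4 : 0 ≤ x ^ 2 * (b + g - a) / (a * (L + a)) := by positivity
          have h5 : 0 ≤ y ^ 2 * (a + g - b) / (b * (L + b)) := by positivity
          have h6 : 0 ≤ z ^ 2 * (a + b - g) / (g * (L + g)) := by positivity
          linarith
  linarith

end H39G
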