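import Pool.Agent.Lib.H39G.S
import Pool.Agent.Lib.H39G.G
import Pool.Agent.Lib.H39G.K
import Pool.Agent.Lib.H46X.B3
import Pool.Agent.Lib.H79G.F1

/-! # H39G, file M: the pointwise theorem and closed manifolds -/

set_option autoImplicit false

open scoped Manifold ContDiff

namespace H39G

open Finset Equiv Pool.Agent.H69Hopf Pool.Agent.H46X H31R H79G

/-- The components of `R` in the basis given by the columns of `E` are those of `-(W - m ⊗ m)`, `W` diagonal, `m` the
simple two-form `a ∧ b`. -/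
def Form {N : ℕ} (R : Arr N) (E : Matrix (Fin N) (Fin N) ℝ) (w : Fin N → Fin N → ℝ) (a b : Fin N → ℝ) : Prop :=
  E.det ≠ 0 ∧ (∀ i j, w i j = w j i) ∧ ∀ i j k l, frameR R E i j k l = - dms w (wd a b) i j k l

/-- The class of curvature tensors. -/
def DiagSimple {N : ℕ} (R : Arr N) : Prop :=
  ∃ (E : Matrix (Fin N) (Fin N) ℝ) (w : Fin N → Fin N → ℝ) (a b : Fin N → ℝ), Form R E w a b ∧
    ∀ (i : Fin N) (y : Fin N → ℝ), ev R (fun p => E p i) y (fun p => E p i) y ≤ 0

/-- The class of curvature tensors, strict form. -/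
def DiagSimplePos {N : ℕ} (R : Arr N) : Prop :=
  ∃ (E : Matrix (Fin N) (Fin N) ℝ) (w : Fin N → Fin N → ℝ) (a b : Fin N → ℝ), Form R E w a b ∧
    ∀ (i : Fin N) (y : Fin N → ℝ), LinearIndependent ℝ ![fun p => E p i, y] →
      ev R (fun p => E p i) y (fun p => E p i) y < 0

theorem gb_negd {n : ℕ} (T : Arr (2 * n)) :
    gaussBonnet n (fun i j k l => - T i j k l) = (-1) ^ n * gaussBonnet n T := by
  unfold gaussBonnet
  rw [mul_sum]
  refine sum_congr rfl fun σ _ => ?_
  rw [mul_sum]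
  refine sum_congr rfl fun τ _ => ?_
  rw [prod_neg, card_univ, Fintype.card_fin]
  ring

theorem gb_eq {n : ℕ} {w m lam : Fin (2 * n) → Fin (2 * n) → ℝ} (h : Dat w m lam) :
    gaussBonnet n (dms w m) = 2 ^ n * ∑ σ : Perm (Fin (2 * n)), (∏ l, w (σ (fst l)) (σ (snd l))) *
      (1 - ∑ l, lm lam σ l) := by
  rw [gb_dms h.plu]
  congr 1
  refine sum_congr rfl fun σ _ => ?_
  rw [mul_sub, mul_one, mul_sum]
  congr 1
  refine sum_congr rfl fun i _ => ?_
  rw [← h.lw, ← mul_prod_erase univ (fun l => w (σ (fst l)) (σ (snd l))) (mem_univ i)]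
  unfold lm
  ring

theorem ev_form {N : ℕ} {R : Arr N} {E : Matrix (Fin N) (Fin N) ℝ} {w : Fin N → Fin N → ℝ} {a b : Fin N → ℝ}
    (h : Form R E w a b) (i : Fin N) (y : Fin N → ℝ) :
    ev (dms w (wd a b)) (Pi.single i 1) y (Pi.single i 1) y =
      - ev R (fun p => E p i) (E.mulVec y) (fun p => E p i) (E.mulVec y) := by
  have h1 := sec_frame R E (Pi.single i 1) y
  have h2 : E.mulVec (Pi.single i 1) = fun p => E p i := by
    rw [Matrix.mulVec_single_one]
    rfl
  rw [h2] at h1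
  rw [← h1]
  unfold ev
  simp only [h.2.2, neg_mul, sum_neg_distrib, neg_neg]

theorem gb_form {n : ℕ} {R : Arr (2 * n)} {E : Matrix (Fin (2 * n)) (Fin (2 * n)) ℝ}
    {w : Fin (2 * n) → Fin (2 * n) → ℝ} {a b : Fin (2 * n) → ℝ} (h : Form R E w a b) :
    E.det ^ 2 * ((-1) ^ n * gaussBonnet n R) = gaussBonnet n (dms w (wd a b)) := by
  have h1 := gb_frameR n R E
  have h2 : frameR R E = fun i j k l => - dms w (wd a b) i j k l := by
    funext i j k l
    exact h.2.2 i j k l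
  rw [h2, gb_negd] at h1
  have h3 : ((-1 : ℝ) ^ n) * (-1) ^ n = 1 := by
    rw [← mul_pow]
    norm_num
  calc E.det ^ 2 * ((-1) ^ n * gaussBonnet n R) = (-1) ^ n * (E.det ^ 2 * gaussBonnet n R) := by ring
    _ = (-1) ^ n * ((-1) ^ n * gaussBonnet n (dms w (wd a b))) := by rw [← h1]
    _ = ((-1 : ℝ) ^ n * (-1) ^ n) * gaussBonnet n (dms w (wd a b)) := by ring
    _ = gaussBonnet n (dms w (wd a b)) := by rw [h3, one_mul]

/-- The pointwise theorem. -/
theorem pointwise {n : ℕ} {R : Arr (2 * n)} (h : DiagSimple R) : 0 ≤ (-1) ^ n * gaussBonnet n R := by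
  obtain ⟨E, w, a, b, hF, hK⟩ := h
  have h0 : 0 < E.det ^ 2 := by
    have := hF.1
    positivity
  have hK' : ∀ (i : Fin (2 * n)) (y : Fin (2 * n) → ℝ),
      0 ≤ ev (dms w (wd a b)) (Pi.single i 1) y (Pi.single i 1) y := by
    intro i y
    rw [ev_form hF]
    have := hK i (E.mulVec y)
    linarith
  obtain ⟨w', lam, hD, hw', hrow⟩ := exists_lam (wd_plu a b) hF.2.1 hK'
  have h1 : 0 ≤ gaussBonnet n (dms w (wd a b)) := by
    rw [← hw', gb_eq hD]
    exact mul_nonneg (by positivity) (sum_perm hD zero_le_one hrow)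
  rw [← gb_form hF] at h1
  exact nonneg_of_mul_nonneg_right h1 h0

/-- The pointwise theorem, strict form. -/
theorem pointwise_pos {n : ℕ} {R : Arr (2 * n)} (h : DiagSimplePos R) : 0 < (-1) ^ n * gaussBonnet n R := by
  obtain ⟨E, w, a, b, hF, hK⟩ := h
  have h0 : 0 < E.det ^ 2 := by
    have := hF.1
    positivity
  have hK' : ∀ (i : Fin (2 * n)) (y : Fin (2 * n) → ℝ), y i = 0 → y ≠ 0 →
      0 < ev (dms w (wd a b)) (Pi.single i 1) y (Pi.single i 1) y := by
    intro i y hyi hy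
    rw [ev_form hF]
    have h2 : LinearIndependent ℝ ![fun p => E p i, E.mulVec y] := by
      rw [LinearIndependent.pair_iff]
      intro s t hst
      have h3 : E.mulVec (s • (Pi.single i 1 : Fin (2 * n) → ℝ) + t • y) = 0 := by
        rw [Matrix.mulVec_add, Matrix.mulVec_smul, Matrix.mulVec_smul, Matrix.mulVec_single_one]
        exact hst
      have h4 := Matrix.eq_zero_of_mulVec_eq_zero hF.1 h3
      have h5 : s = 0 := by
        have h6 := congrFun h4 i
        simpa [hyi] using h6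
      refine ⟨h5, ?_⟩
      rw [h5, zero_smul, zero_add] at h4
      exact (smul_eq_zero.1 h4).resolve_right hy
    have := hK i (E.mulVec y) h2
    linarith
  obtain ⟨w', lam, ρ, hD, hw', hρ0, hρ1, hrow, hpos⟩ := exists_lam_strict (wd_plu a b) hF.2.1 hK'
  have h1 : 0 < gaussBonnet n (dms w (wd a b)) := by
    rw [← hw', gb_eq hD]
    refine mul_pos (by positivity) ?_
    have h2 : ∑ σ : Perm (Fin (2 * n)), (∏ l, w' (σ (fst l)) (σ (snd l))) * (1 - ∑ l, lm lam σ l) =
        ∑ σ : Perm (Fin (2 * n)), (∏ l, w' (σ (fst l)) (σ (snd l))) * (ρ - ∑ l, lm lam σ l) +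
        (1 - ρ) * ∑ σ : Perm (Fin (2 * n)), ∏ l, w' (σ (fst l)) (σ (snd l)) := by
      rw [mul_sum, ← sum_add_distrib]
      refine sum_congr rfl fun σ _ => ?_
      ring
    rw [h2]
    have h3 : 0 < ∑ σ : Perm (Fin (2 * n)), ∏ l, w' (σ (fst l)) (σ (snd l)) :=
      sum_pos (fun σ _ => prod_pos fun l _ => hpos _ _ fun he =>
        fst_ne_snd l l (σ.injective he)) ⟨1, mem_univ _⟩
    have h4 := sum_perm hD hρ0 hrow
    have h5 : 0 < (1 - ρ) * ∑ σ : Perm (Fin (2 * n)), ∏ l, w' (σ (fst l)) (σ (snd l)) :=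
      mul_pos (by linarith) h3
    linarith
  rw [← gb_form hF] at h1
  exact pos_of_mul_pos_right h1 h0.le

/-- Closed manifolds. -/
theorem main (n : ℕ) (M : Closed (2 * n)) (g : Ch.Metric (2 * n) M.carrier)
    (hK : ∀ p : M.carrier, ∀ y ∈ (chartAt (EE (2 * n)) p).target, DiagSimple (riem (g.mat p) y)) :
    ∃ χ : ℤ, IsEulerCharacteristic (2 * n) M.carrier χ ∧ 0 ≤ (-1) ^ n * χ ∧
      ((∃ m : M.carrier, DiagSimplePos (riem (g.mat m) (chartAt (EE (2 * n)) m m))) →
        0 < (-1) ^ n * χ) := by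
  have hfr : ∀ {R : Arr (2 * n)} {G E : Mt (2 * n)}, E.transpose * G * E = 1 → 0 < E.det ^ 2 := by
    intro R G E hE
    have h1 : E.det ≠ 0 := by
      intro h
      have h2 := congrArg Matrix.det hE
      rw [Matrix.det_mul, Matrix.det_mul, h, mul_zero, Matrix.det_one] at h2
      exact zero_ne_one h2
    positivity
  obtain ⟨χ, h1, h2, h3⟩ := sign_principle n M g ((-1) ^ n) fun p y hy E hE => by
    rw [gb_frameR, mul_left_comm]
    exact mul_nonneg (sq_nonneg _) (pointwise (hK p y hy))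
  refine ⟨χ, h1, by exact_mod_cast h2, fun ⟨m, hm⟩ => ?_⟩
  have h4 : (0 : ℝ) < (-1) ^ n * χ := h3 ⟨m, fun E hE => by
    rw [gb_frameR, mul_left_comm]
    exact mul_pos (hfr (R := 0) hE) (pointwise_pos hm)⟩
  exact_mod_cast h4

end H39G
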