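import Pool.Agent.Lib.H39G.M
import Pool.Agent.Lib.H69.Hopf.Key
import Pool.Agent.Lib.H56E.A6
import Pool.Agent.Lib.H56E.A7
import Pool.Agent.Lib.H56E.A8
import Pool.Agent.Lib.H56E.A11
import Pool.Agent.Lib.H56E.A12A

/-! # H39G, file N: several simple forms with disjoint supports (blocks)

`dmb t w a b`: diagonal part with the coefficients `w i j`, minus the squares of the forms `a ∧ b` restricted to the
blocks of the index function `t`. By `H56E.A6` the mixed Gauss-Bonnet forms of the blocks and of the squares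
`(e_i ∧ e_j) ^ 2` are products of Gauss-Bonnet integrands of coordinate subspaces of the blocks, which are nonnegative by
the theorem for one form (file M). -/

set_option autoImplicit false

namespace H39G

open Finset Equiv Pool.Agent.H69Hopf
open H56E (GenS Pos Ref Cls sqf ei InC A6 A7_closure A7_mono A8_mem A8_gb A8_cls A11_blk A12_inj)

/-- One form: the sign. -/
theorem gb_dms_nonneg {n : ℕ} {w : Fin (2 * n) → Fin (2 * n) → ℝ} {a b : Fin (2 * n) → ℝ}
    (hs : ∀ i j, w i j = w j i)
    (hK : ∀ (i : Fin (2 * n)) (y : Fin (2 * n) → ℝ),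
      0 ≤ ev (dms w (wd a b)) (Pi.single i 1) y (Pi.single i 1) y) :
    0 ≤ gaussBonnet n (dms w (wd a b)) := by
  obtain ⟨w', lam, hD, hw', hrow⟩ := exists_lam (wd_plu a b) hs hK
  rw [← hw', gb_eq hD]
  exact mul_nonneg (by positivity) (sum_perm hD zero_le_one hrow)

/-- The tensor with several forms. -/
def dmb {N : ℕ} (t : Fin N → ℕ) (w : Fin N → Fin N → ℝ) (a b : Fin N → ℝ) : Arr N := fun i j k l =>
  w i j * dl i j k l - if t i = t j ∧ t k = t l ∧ t i = t k then wd a b i j * wd a b k l else 0

theorem ev_one {N : ℕ} (B : Arr N) {x y z u : Fin N → ℝ} {p q r s : Fin N} (hx : ∀ i, x i ≠ 0 → i = p)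
    (hy : ∀ i, y i ≠ 0 → i = q) (hz : ∀ i, z i ≠ 0 → i = r) (hu : ∀ i, u i ≠ 0 → i = s) :
    ev B x y z u = B p q r s * x p * y q * z r * u s := by
  unfold ev
  rw [sum_eq_single p, sum_eq_single q, sum_eq_single r, sum_eq_single s]
  · intro i _ hi
    rw [show u i = 0 from by_contra fun h => hi (hu i h), mul_zero]
  · intro h
    exact absurd (mem_univ _) h
  · intro i _ hi
    refine sum_eq_zero fun j _ => ?_
    rw [show z i = 0 from by_contra fun h => hi (hz i h), mul_zero, zero_mul]
  · intro h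
    exact absurd (mem_univ _) h
  · intro i _ hi
    refine sum_eq_zero fun j _ => sum_eq_zero fun k _ => ?_
    rw [show y i = 0 from by_contra fun h => hi (hy i h), mul_zero, zero_mul, zero_mul]
  · intro h
    exact absurd (mem_univ _) h
  · intro i _ hi
    refine sum_eq_zero fun j _ => sum_eq_zero fun k _ => sum_eq_zero fun l _ => ?_
    rw [show x i = 0 from by_contra fun h => hi (hx i h), mul_zero, zero_mul, zero_mul, zero_mul]
  · intro h
    exact absurd (mem_univ _) h

theorem dl_eps {M N : ℕ} {f : Fin M → Fin N} (hf : Function.Injective f) {e : Fin M → ℝ} (h1 : ∀ k, e k ^ 2 = 1)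
    (i j k l : Fin M) : dl (f i) (f j) (f k) (f l) * (e i * e j * e k * e l) = dl i j k l := by
  have key : ∀ p q r s : Fin M, ((if p = r then (1 : ℝ) else 0) * (if q = s then 1 else 0)) * (e p * e q * e r * e s) =
      (if p = r then 1 else 0) * (if q = s then 1 else 0) := by
    intro p q r s
    by_cases h : p = r
    · by_cases h' : q = s
      · subst h
        subst h'
        rw [if_pos rfl, if_pos rfl]
        linear_combination (e q) ^ 2 * h1 p + h1 q
      · rw [if_neg h', mul_zero, zero_mul]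
    · rw [if_neg h, zero_mul, zero_mul]
  unfold dl
  simp only [hf.eq_iff]
  have h2 := key i j k l
  have h3 := key i j l k
  linear_combination h2 - h3

theorem pull_eq {M N : ℕ} {w : Fin N → Fin N → ℝ} {a b : Fin N → ℝ} {t : Fin N → ℕ} {c : ℕ}
    {v : Fin M → (Fin N → ℝ)} {f : Fin M → Fin N} (hf : Function.Injective f) (hv : ∀ k i, v k i ≠ 0 → i = f k)
    (h1 : ∀ k, v k (f k) ^ 2 = 1) (ht : ∀ k, t (f k) = c) :
    pull v (dmb t w a b) = dms (fun i j => w (f i) (f j))
      (wd (fun i => v i (f i) * a (f i)) (fun i => v i (f i) * b (f i))) := by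
  funext i j k l
  show ev (dmb t w a b) (v i) (v j) (v k) (v l) = _
  rw [ev_one (dmb t w a b) (hv i) (hv j) (hv k) (hv l)]
  unfold dmb dms wd
  rw [if_pos ⟨by rw [ht, ht], by rw [ht, ht], by rw [ht, ht]⟩]
  have h2 := dl_eps hf (e := fun k => v k (f k)) h1 i j k l
  linear_combination w (f i) (f j) * h2

theorem pull_blk {M N : ℕ} {w : Fin N → Fin N → ℝ} {a b : Fin N → ℝ} {t : Fin N → ℕ} {c : ℕ}
    {v : Fin M → (Fin N → ℝ)} {f : Fin M → Fin N} (hv : ∀ k i, v k i ≠ 0 → i = f k) (ht : ∀ k, t (f k) = c) :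
    pull v (H56E.blk t c (dms w (wd a b))) = pull v (dmb t w a b) := by
  funext i j k l
  show ev (H56E.blk t c (dms w (wd a b))) (v i) (v j) (v k) (v l) = ev (dmb t w a b) (v i) (v j) (v k) (v l)
  rw [ev_one _ (hv i) (hv j) (hv k) (hv l), ev_one _ (hv i) (hv j) (hv k) (hv l)]
  unfold dmb dms H56E.blk
  rw [if_pos ⟨ht i, ht j, ht k, ht l⟩, if_pos ⟨by rw [ht, ht], by rw [ht, ht], by rw [ht, ht]⟩]

theorem comb_single {M N : ℕ} (v : Fin M → (Fin N → ℝ)) (i : Fin M) : comb v (Pi.single i 1) = v i := by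
  funext k
  unfold comb
  rw [sum_eq_single i]
  · rw [Pi.single_eq_same, one_mul]
  · intro j _ hj
    rw [Pi.single_eq_of_ne hj, zero_mul]
  · intro h
    exact absurd (mem_univ _) h

/-- The hypothesis on the planes through the basis vectors. -/
def Cond {N : ℕ} (D : Arr N) : Prop :=
  ∀ (i : Fin N) (y : Fin N → ℝ), 0 ≤ ev D (Pi.single i 1) y (Pi.single i 1) y

theorem dmb_pos {N : ℕ} {w : Fin N → Fin N → ℝ} {a b : Fin N → ℝ} {t : Fin N → ℕ} (hs : ∀ i j, w i j = w j i)
    (hK : Cond (dmb t w a b)) : Pos (fun i : Fin N => i.1) t (fun c => H56E.blk t c (dms w (wd a b))) := by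
  refine ⟨fun c i j k l hne => ?_, fun c r v hv hcls hsup => ?_⟩
  · by_contra hc
    exact hne (if_neg hc)
  · obtain ⟨f, hf, hf0⟩ := A12_inj hv
    have hv' : ∀ k i, v k i ≠ 0 → i = f k := fun k i hi => Fin.ext (hcls k i (f k) hi (hf0 k))
    have ht : ∀ k, t (f k) = c := fun k => hsup k (f k) (hf0 k)
    have h1 : ∀ k, v k (f k) ^ 2 = 1 := by
      intro k
      have h2 := hv k k
      rw [if_pos rfl] at h2
      unfold dot at h2
      rw [sum_eq_single (f k)] at h2
      · rw [sq]
        exact h2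
      · intro i _ hi
        rw [show v k i = 0 from by_contra fun h => hi (hv' k i h), mul_zero]
      · intro h
        exact absurd (mem_univ _) h
    show 0 ≤ gaussBonnet r (pull v (H56E.blk t c (dms w (wd a b))))
    rw [pull_blk hv' ht, pull_eq hf hv' h1 ht]
    refine gb_dms_nonneg (fun i j => hs _ _) fun i y => ?_
    rw [← pull_eq hf hv' h1 ht, ← ev_comb, comb_single]
    have h3 : v i = (v i (f i)) • (Pi.single (f i) 1 : Fin N → ℝ) := by
      funext j
      rw [Pi.smul_apply, smul_eq_mul, Pi.single_apply]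
      by_cases hj : j = f i
      · rw [if_pos hj, mul_one, hj]
      · rw [if_neg hj, mul_zero]
        exact by_contra fun h => hj (hv' i j h)
    rw [h3, ev_smul1, ev_smul3]
    have h4 := hK (f i) (comb v y)
    have h5 : v i (f i) * (v i (f i) * ev (dmb t w a b) (Pi.single (f i) 1) (comb v y) (Pi.single (f i) 1) (comb v y)) =
        v i (f i) ^ 2 * ev (dmb t w a b) (Pi.single (f i) 1) (comb v y) (Pi.single (f i) 1) (comb v y) := by ring
    rw [h5]
    exact mul_nonneg (sq_nonneg _) h4

theorem dl_skew {N : ℕ} (i j k l : Fin N) : dl j i k l = - dl i j k l := by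
  unfold dl
  ring

/-- The squares of the coordinate forms. -/
theorem sum_sq {N : ℕ} {W : Fin N → Fin N → ℝ} (hs : ∀ i j, W i j = W j i) (hW : ∀ i j, 0 ≤ W i j)
    (i j k l : Fin N) : ∑ p, ∑ q, sqf (ei p) (Real.sqrt (W p q / 2) • ei q) i j k l = W i j * dl i j k l := by
  have h1 : ∀ p q, sqf (ei p) (Real.sqrt (W p q / 2) • ei q) i j k l =
      (if p = i then (if q = j then W p q / 2 * dl p q k l else 0) else 0) -
      (if p = j then (if q = i then W p q / 2 * dl p q k l else 0) else 0) := by
    intro p q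
    have h2 : Real.sqrt (W p q / 2) ^ 2 = W p q / 2 := Real.sq_sqrt (by have := hW p q; positivity)
    have h3 : ∀ x y : Fin N, ei x y = if x = y then (1 : ℝ) else 0 := by
      intro x y
      unfold ei
      rw [Pi.single_apply]
      by_cases h : x = y
      · rw [if_pos h, if_pos h.symm]
      · rw [if_neg h, if_neg fun h' => h h'.symm]
    have h4 : sqf (ei p) (Real.sqrt (W p q / 2) • ei q) i j k l = W p q / 2 *
        (((if p = i then 1 else 0) * (if q = j then 1 else 0) - (if p = j then 1 else 0) * (if q = i then 1 else 0)) *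
          dl p q k l) := by
      unfold sqf dl
      simp only [Pi.smul_apply, smul_eq_mul, h3]
      linear_combination (((if p = i then (1 : ℝ) else 0) * (if q = j then 1 else 0) -
        (if p = j then 1 else 0) * (if q = i then 1 else 0)) * ((if p = k then 1 else 0) * (if q = l then 1 else 0) -
          (if p = l then 1 else 0) * (if q = k then 1 else 0))) * h2
    rw [h4]
    split_ifs <;> ring
  simp only [h1, sum_sub_distrib, sum_ite_eq', sum_ite_irrel, sum_const_zero, mem_univ, if_true]
  rw [hs j i, dl_skew i j]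
  ring

theorem dmb_mem {N : ℕ} {w : Fin N → Fin N → ℝ} {a b : Fin N → ℝ} {t : Fin N → ℕ} (hs : ∀ i j, w i j = w j i)
    (hw : ∀ i j, t i ≠ t j → 0 ≤ w i j) (s : Fin N → ℕ) :
    dmb t w a b ∈ AddSubmonoid.closure (GenS s (fun c => H56E.blk t c (dms w (wd a b)))) := by
  classical
  set W : Fin N → Fin N → ℝ := fun i j => if t i = t j then 0 else w i j with hWd
  have hWs : ∀ i j, W i j = W j i := by
    intro i j
    simp only [hWd]
    by_cases h : t i = t j
    · rw [if_pos h, if_pos h.symm]
    · rw [if_neg h, if_neg fun h' => h h'.symm, hs]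
  have hW0 : ∀ i j, 0 ≤ W i j := by
    intro i j
    simp only [hWd]
    split_ifs with h
    · exact le_rfl
    · exact hw i j h
  have e : dmb t w a b = (∑ c ∈ (univ : Finset (Fin N)).image t, H56E.blk t c (dms w (wd a b))) +
      ∑ p : Fin N, ∑ q : Fin N, sqf (ei p) (Real.sqrt (W p q / 2) • ei q) := by
    funext i j k l
    have h1 : ((∑ c ∈ (univ : Finset (Fin N)).image t, H56E.blk t c (dms w (wd a b))) +
        ∑ p : Fin N, ∑ q : Fin N, sqf (ei p) (Real.sqrt (W p q / 2) • ei q)) i j k l =
        ∑ c ∈ (univ : Finset (Fin N)).image t, H56E.blk t c (dms w (wd a b)) i j k l +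
        ∑ p : Fin N, ∑ q : Fin N, sqf (ei p) (Real.sqrt (W p q / 2) • ei q) i j k l := by
      simp only [Pi.add_apply, Finset.sum_apply]
    rw [h1, A11_blk, sum_sq hWs hW0]
    unfold dmb
    simp only [hWd]
    by_cases h : t i = t j
    · rw [if_pos h, zero_mul, add_zero]
      by_cases h2 : t k = t l ∧ t i = t k
      · rw [if_pos ⟨h, h2⟩, if_pos ⟨h, h2.2, h2.2.trans h2.1⟩]
        rfl
      · rw [if_neg fun h3 => h2 h3.2, if_neg fun h3 => h2 ⟨h3.2.1.symm.trans h3.2.2, h3.2.1⟩, sub_zero]
        have h4 : dl i j k l = 0 := by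
          unfold dl
          by_cases h5 : i = k
          · by_cases h6 : j = l
            · exact absurd ⟨by rw [← h5, ← h6, h], by rw [h5]⟩ h2
            · by_cases h7 : j = k
              · by_cases h8 : i = l
                · exact absurd (by rw [h7, ← h5, h8]) h6
                · rw [if_neg h6, if_neg h8]
                  ring
              · rw [if_neg h6, if_neg h7]
                ring
          · by_cases h6 : i = l
            · by_cases h7 : j = k
              · exact absurd ⟨by rw [← h7, ← h6, h], by rw [← h7, h]⟩ h2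
              · rw [if_neg h5, if_neg h7]
                ring
            · rw [if_neg h5, if_neg h6]
              ring
        rw [h4, mul_zero]
    · rw [if_neg h, if_neg fun h3 => h h3.1, if_neg fun h3 => h h3.1, sub_zero, zero_add]
  rw [e]
  refine add_mem (AddSubmonoid.sum_mem _ fun c _ => AddSubmonoid.subset_closure (Or.inl ⟨c, rfl⟩)) ?_
  refine AddSubmonoid.sum_mem _ fun p _ => AddSubmonoid.sum_mem _ fun q _ => AddSubmonoid.subset_closure ?_
  refine Or.inr ⟨ei p, Real.sqrt (W p q / 2) • ei q, ?_, A8_cls s q _, rfl⟩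
  have h2 := A8_cls s p 1
  rwa [one_smul] at h2

theorem cross_nonneg {N : ℕ} {w : Fin N → Fin N → ℝ} {a b : Fin N → ℝ} {t : Fin N → ℕ} (hK : Cond (dmb t w a b))
    (i j : Fin N) (h : t i ≠ t j) : 0 ≤ w i j := by
  have h1 := hK i (Pi.single j 1)
  rw [ev_single] at h1
  have hij : i ≠ j := fun h' => h (by rw [h'])
  have h2 : dmb t w a b i j i j = w i j := by
    unfold dmb dl
    rw [if_neg (fun h3 : t i = t j ∧ t i = t j ∧ t i = t i => h h3.1), if_neg hij]
    simp
  rw [h2] at h1
  exact h1

theorem gb_dmb_nonneg {n : ℕ} {w : Fin (2 * n) → Fin (2 * n) → ℝ} {a b : Fin (2 * n) → ℝ} {t : Fin (2 * n) → ℕ}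
    (hs : ∀ i j, w i j = w j i) (hK : Cond (dmb t w a b)) : 0 ≤ gaussBonnet n (dmb t w a b) := by
  have hr : Ref (fun i : Fin (2 * n) => i.1) t := fun i j h => by rw [Fin.ext h]
  rw [gaussBonnet_eq_mgb]
  exact A7_closure (A6 n _ t _ hr (dmb_pos hs hK)) fun _ => dmb_mem hs (cross_nonneg hK) _

theorem dmb_sub {N : ℕ} (w : Fin N → Fin N → ℝ) (a b : Fin N → ℝ) (t : Fin N → ℕ) (c : ℝ) :
    dmb t w a b = dmb t (fun i j => w i j - c) a b + c • idA N := by
  funext i j k l
  simp only [Pi.add_apply, Pi.smul_apply, smul_eq_mul]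
  unfold dmb idA dl
  ring

/-- A bound from below by a constant curvature term. -/
theorem gb_dmb_pos {n : ℕ} {w : Fin (2 * n) → Fin (2 * n) → ℝ} {a b : Fin (2 * n) → ℝ} {t : Fin (2 * n) → ℕ}
    (hs : ∀ i j, w i j = w j i) {c : ℝ} (hc : 0 ≤ c)
    (hK : ∀ (i : Fin (2 * n)) (y : Fin (2 * n) → ℝ), c * (dot y y - y i ^ 2) ≤
      ev (dmb t w a b) (Pi.single i 1) y (Pi.single i 1) y) :
    4 ^ n * (n.factorial : ℝ) * c ^ n ≤ gaussBonnet n (dmb t w a b) := by
  have hs' : ∀ i j, (fun i j => w i j - c) i j = (fun i j => w i j - c) j i := fun i j => by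
    show w i j - c = w j i - c
    rw [hs]
  have hK' : Cond (dmb t (fun i j => w i j - c) a b) := by
    intro i y
    have h1 := hK i y
    have h2 : ev (dmb t w a b) (Pi.single i 1) y (Pi.single i 1) y =
        ev (dmb t (fun i j => w i j - c) a b) (Pi.single i 1) y (Pi.single i 1) y +
          c * ev (idA (2 * n)) (Pi.single i 1) y (Pi.single i 1) y := by
      conv_lhs => rw [dmb_sub w a b t c]
      unfold ev
      rw [mul_sum, ← sum_add_distrib]
      refine sum_congr rfl fun p _ => ?_
      rw [mul_sum, ← sum_add_distrib]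
      refine sum_congr rfl fun q _ => ?_
      rw [mul_sum, ← sum_add_distrib]
      refine sum_congr rfl fun r _ => ?_
      rw [mul_sum, ← sum_add_distrib]
      refine sum_congr rfl fun s _ => ?_
      simp only [Pi.add_apply, Pi.smul_apply, smul_eq_mul]
      ring
    have h3 : ∀ z : Fin (2 * n) → ℝ, dot (Pi.single i 1) z = z i := by
      intro z
      unfold dot
      rw [sum_eq_single i]
      · rw [Pi.single_eq_same, one_mul]
      · intro j _ hj
        rw [Pi.single_eq_of_ne hj, zero_mul]
      · intro h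
        exact absurd (mem_univ _) h
    rw [ev_idA, dot_comm y (Pi.single i 1), h3, h3, Pi.single_eq_same] at h2
    rw [h2] at h1
    linarith
  have hr : Ref (fun i : Fin (2 * n) => i.1) t := fun i j h => by rw [Fin.ext h]
  have hm := A7_mono (A6 n _ t _ hr (dmb_pos hs' hK')) (dmb_mem hs' (cross_nonneg hK') _)
    (A8_mem (fun i : Fin (2 * n) => i.1) (fun c' => H56E.blk t c' (dms (fun i j => w i j - c) (wd a b))) hc)
  rw [← dmb_sub, ← gaussBonnet_eq_mgb, ← gaussBonnet_eq_mgb] at hm
  exact (A8_gb n hc).trans hm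

end H39G
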