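import Pool.Agent.Lib.H39G.N

/-! # H39G, file O: several simple forms, the pointwise theorem in an arbitrary basis -/

set_option autoImplicit false

namespace H39G

open Finset Equiv Pool.Agent.H69Hopf Pool.Agent.H46X H31R H79G

theorem ev_last {N : ℕ} {D : Arr N} (h : ∀ i j k l, D i j l k = - D i j k l) (x y : Fin N → ℝ) (i : Fin N) :
    ev D x y (Pi.single i 1) (Pi.single i 1) = 0 := by
  unfold ev
  refine sum_eq_zero fun p _ => sum_eq_zero fun q _ => sum_eq_zero fun k _ => sum_eq_zero fun l _ => ?_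
  by_cases hk : k = i
  · by_cases hl : l = i
    · have h1 := h p q i i
      have h2 : D p q i i = 0 := by linarith
      rw [hk, hl, h2]
      ring
    · rw [Pi.single_eq_of_ne hl, mul_zero]
  · rw [Pi.single_eq_of_ne hk, mul_zero, zero_mul]

theorem ev_shift {N : ℕ} {D : Arr N} (h1 : ∀ i j k l, D j i k l = - D i j k l)
    (h2 : ∀ i j k l, D i j l k = - D i j k l) (i : Fin N) (y : Fin N → ℝ) (s : ℝ) :
    ev D (Pi.single i 1) (y + s • Pi.single i 1) (Pi.single i 1) (y + s • Pi.single i 1) =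
      ev D (Pi.single i 1) y (Pi.single i 1) y := by
  rw [ev_add2, ev_add4, ev_add4, ev_smul2, ev_smul4, ev_smul2, ev_smul4, ev_skew_self D (fun a b c d => h1 a b c d),
    ev_skew_self D (fun a b c d => h1 a b c d), ev_last h2]
  ring

theorem exists_c {N : ℕ} {D : Arr N} (h1 : ∀ i j k l, D j i k l = - D i j k l)
    (h2 : ∀ i j k l, D i j l k = - D i j k l)
    (hpos : ∀ (i : Fin N) (y : Fin N → ℝ), y i = 0 → y ≠ 0 → 0 < ev D (Pi.single i 1) y (Pi.single i 1) y) :
    ∃ c : ℝ, 0 < c ∧ ∀ (i : Fin N) (y : Fin N → ℝ), c * (dot y y - y i ^ 2) ≤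
      ev D (Pi.single i 1) y (Pi.single i 1) y := by
  have key : ∀ i : Fin N, ∃ c : ℝ, 0 < c ∧ ∀ y : Fin N → ℝ, y i = 0 → c * dot y y ≤
      ev D (Pi.single i 1) y (Pi.single i 1) y := by
    intro i
    have hdc : Continuous fun y : Fin N → ℝ => dot y y := by
      unfold dot
      fun_prop
    have hS : IsCompact {y : Fin N → ℝ | y i = 0 ∧ dot y y = 1} := by
      refine Metric.isCompact_of_isClosed_isBounded ?_ ?_
      · exact (isClosed_eq (continuous_apply i) continuous_const).inter (isClosed_eq hdc continuous_const)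
      · refine (Metric.isBounded_closedBall (x := (0 : Fin N → ℝ)) (r := 1)).subset fun y hy => ?_
        rw [mem_closedBall_zero_iff, pi_norm_le_iff_of_nonneg zero_le_one]
        intro j
        have h3 : y j * y j ≤ dot y y := single_le_sum (f := fun j => y j * y j) (fun k _ => mul_self_nonneg _) (mem_univ j)
        rw [hy.2] at h3
        rw [Real.norm_eq_abs]
        exact abs_le_one_iff_mul_self_le_one.2 h3
    have hfc : Continuous fun y : Fin N → ℝ => ev D (Pi.single i 1) y (Pi.single i 1) y := by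
      unfold ev
      fun_prop
    rcases Set.eq_empty_or_nonempty {y : Fin N → ℝ | y i = 0 ∧ dot y y = 1} with he | hne
    · refine ⟨1, one_pos, fun y hy => ?_⟩
      by_cases h0 : y = 0
      · subst h0
        have h3 : dot (0 : Fin N → ℝ) 0 = 0 := by
          unfold dot
          simp
        have h4 : ev D (Pi.single i 1) 0 (Pi.single i 1) 0 = 0 := by
          unfold ev
          simp
        rw [h3, h4, mul_zero]
      · exfalso
        have h3 : 0 < dot y y := by
          obtain ⟨j, hj⟩ := Function.ne_iff.1 h0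
          exact lt_of_lt_of_le (mul_self_pos.2 hj)
            (single_le_sum (f := fun j => y j * y j) (fun k _ => mul_self_nonneg _) (mem_univ j))
        have h4 : (Real.sqrt (dot y y))⁻¹ • y ∈ {y : Fin N → ℝ | y i = 0 ∧ dot y y = 1} := by
          refine ⟨?_, ?_⟩
          · rw [Pi.smul_apply, hy, smul_zero]
          · rw [dot_smul_left, dot_smul_right]
            have h5 := Real.sqrt_ne_zero'.2 h3
            have h6 := Real.mul_self_sqrt h3.le
            field_simp
            linarith [sq (Real.sqrt (dot y y))]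
        rw [he] at h4
        exact h4
    · obtain ⟨y0, hy0, hmin⟩ := hS.exists_isMinOn hne hfc.continuousOn
      have hy0' : y0 ≠ 0 := by
        rintro rfl
        have := hy0.2
        unfold dot at this
        simp at this
      refine ⟨ev D (Pi.single i 1) y0 (Pi.single i 1) y0, hpos i y0 hy0.1 hy0', fun y hy => ?_⟩
      by_cases h0 : y = 0
      · subst h0
        have h3 : dot (0 : Fin N → ℝ) 0 = 0 := by
          unfold dot
          simp
        have h4 : ev D (Pi.single i 1) 0 (Pi.single i 1) 0 = 0 := by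
          unfold ev
          simp
        rw [h3, h4, mul_zero]
      · have h3 : 0 < dot y y := by
          obtain ⟨j, hj⟩ := Function.ne_iff.1 h0
          exact lt_of_lt_of_le (mul_self_pos.2 hj)
            (single_le_sum (f := fun j => y j * y j) (fun k _ => mul_self_nonneg _) (mem_univ j))
        have h5 := Real.sqrt_ne_zero'.2 h3
        have h6 := Real.mul_self_sqrt h3.le
        have h4 : (Real.sqrt (dot y y))⁻¹ • y ∈ {y : Fin N → ℝ | y i = 0 ∧ dot y y = 1} := by
          refine ⟨?_, ?_⟩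
          · rw [Pi.smul_apply, hy, smul_zero]
          · rw [dot_smul_left, dot_smul_right]
            field_simp
            linarith [sq (Real.sqrt (dot y y))]
        have h7 := hmin h4
        simp only [Set.mem_setOf_eq] at h7
        rw [ev_smul2, ev_smul4] at h7
        have h8 : (Real.sqrt (dot y y))⁻¹ * ((Real.sqrt (dot y y))⁻¹ * ev D (Pi.single i 1) y (Pi.single i 1) y) =
            ev D (Pi.single i 1) y (Pi.single i 1) y / dot y y := by
          rw [← mul_assoc, ← mul_inv, h6, div_eq_inv_mul]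
        rw [h8, le_div_iff₀ h3] at h7
        exact h7
  choose ci hci hle using key
  obtain ⟨c, hc, hcl⟩ : ∃ c : ℝ, 0 < c ∧ ∀ i, c ≤ ci i := by
    rcases isEmpty_or_nonempty (Fin N) with h | h
    · exact ⟨1, one_pos, fun i => h.elim i⟩
    · obtain ⟨i0, -, h0⟩ := exists_min_image univ ci ⟨h.some, mem_univ _⟩
      exact ⟨ci i0, hci i0, fun i => h0 i (mem_univ i)⟩
  refine ⟨c, hc, fun i y => ?_⟩
  have h3 : (y + (-(y i)) • (Pi.single i 1 : Fin N → ℝ)) i = 0 := by
    rw [Pi.add_apply, Pi.smul_apply, Pi.single_eq_same, smul_eq_mul]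
    ring
  have h4 := hle i _ h3
  rw [ev_shift h1 h2] at h4
  have h5 : dot (y + (-(y i)) • (Pi.single i 1 : Fin N → ℝ)) (y + (-(y i)) • (Pi.single i 1 : Fin N → ℝ)) =
      dot y y - y i ^ 2 := by
    have h6 : ∀ z : Fin N → ℝ, dot z (Pi.single i 1) = z i := by
      intro z
      unfold dot
      rw [sum_eq_single i]
      · rw [Pi.single_eq_same, mul_one]
      · intro j _ hj
        rw [Pi.single_eq_of_ne hj, mul_zero]
      · intro h
        exact absurd (mem_univ _) h
    rw [dot_add_left, dot_add_right, dot_add_right, dot_smul_left, dot_smul_left, dot_smul_right, dot_smul_right, h6,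
      h6, dot_comm (Pi.single i 1) y, h6, Pi.single_eq_same]
    ring
  rw [h5] at h4
  refine le_trans (mul_le_mul_of_nonneg_right (hcl i) ?_) h4
  rw [← h5]
  exact dot_self_nonneg _

theorem dmb_skew1 {N : ℕ} {w : Fin N → Fin N → ℝ} (hs : ∀ i j, w i j = w j i) (a b : Fin N → ℝ) (t : Fin N → ℕ)
    (i j k l : Fin N) : dmb t w a b j i k l = - dmb t w a b i j k l := by
  unfold dmb
  rw [dl_skew i j, hs j i]
  by_cases h : t i = t j ∧ t k = t l ∧ t i = t k
  · rw [if_pos h, if_pos ⟨h.1.symm, h.2.1, h.1.symm.trans h.2.2⟩]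
    unfold wd
    ring
  · rw [if_neg h, if_neg fun h' => h ⟨h'.1.symm, h'.2.1, h'.1.symm.trans h'.2.2⟩]
    ring

theorem dmb_skew2 {N : ℕ} (w : Fin N → Fin N → ℝ) (a b : Fin N → ℝ) (t : Fin N → ℕ)
    (i j k l : Fin N) : dmb t w a b i j l k = - dmb t w a b i j k l := by
  have h0 : dl i j l k = - dl i j k l := by
    unfold dl
    ring
  unfold dmb
  rw [h0]
  by_cases h : t i = t j ∧ t k = t l ∧ t i = t k
  · rw [if_pos h, if_pos ⟨h.1, h.2.1.symm, h.2.2.trans h.2.1⟩]
    unfold wd
    ring
  · rw [if_neg h, if_neg fun h' => h ⟨h'.1, h'.2.1.symm, h'.2.2.trans h'.2.1⟩]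
    ring

/-- The components of `R` in the basis given by the columns of `E` are those of a diagonal tensor plus the squares of
simple two-forms supported in the blocks of `t`. -/
def Blocks {N : ℕ} (R : Arr N) (E : Matrix (Fin N) (Fin N) ℝ) (t : Fin N → ℕ) (w : Fin N → Fin N → ℝ)
    (a b : Fin N → ℝ) : Prop :=
  E.det ≠ 0 ∧ (∀ i j, w i j = w j i) ∧ ∀ i j k l, frameR R E i j k l = - dmb t w a b i j k l

theorem ev_blocks {N : ℕ} {R : Arr N} {E : Matrix (Fin N) (Fin N) ℝ} {t : Fin N → ℕ} {w : Fin N → Fin N → ℝ}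
    {a b : Fin N → ℝ} (h : Blocks R E t w a b) (x y : Fin N → ℝ) :
    ev (dmb t w a b) x y x y = - ev R (E.mulVec x) (E.mulVec y) (E.mulVec x) (E.mulVec y) := by
  rw [← sec_frame R E x y]
  unfold ev
  simp only [h.2.2, neg_mul, sum_neg_distrib, neg_neg]

theorem gb_blocks {n : ℕ} {R : Arr (2 * n)} {E : Matrix (Fin (2 * n)) (Fin (2 * n)) ℝ} {t : Fin (2 * n) → ℕ}
    {w : Fin (2 * n) → Fin (2 * n) → ℝ} {a b : Fin (2 * n) → ℝ} (h : Blocks R E t w a b) :
    E.det ^ 2 * ((-1) ^ n * gaussBonnet n R) = gaussBonnet n (dmb t w a b) := by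
  have h1 := gb_frameR n R E
  have h2 : frameR R E = fun i j k l => - dmb t w a b i j k l := by
    funext i j k l
    exact h.2.2 i j k l
  rw [h2, gb_negd] at h1
  have h3 : ((-1 : ℝ) ^ n) * (-1) ^ n = 1 := by
    rw [← mul_pow]
    norm_num
  calc E.det ^ 2 * ((-1) ^ n * gaussBonnet n R) = (-1) ^ n * (E.det ^ 2 * gaussBonnet n R) := by ring
    _ = (-1) ^ n * ((-1) ^ n * gaussBonnet n (dmb t w a b)) := by rw [← h1]
    _ = ((-1 : ℝ) ^ n * (-1) ^ n) * gaussBonnet n (dmb t w a b) := by ring
    _ = gaussBonnet n (dmb t w a b) := by rw [h3, one_mul]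

/-- The pointwise theorem. -/
theorem blocks_nonneg {n : ℕ} {R : Arr (2 * n)} {E : Matrix (Fin (2 * n)) (Fin (2 * n)) ℝ} {t : Fin (2 * n) → ℕ}
    {w : Fin (2 * n) → Fin (2 * n) → ℝ} {a b : Fin (2 * n) → ℝ} (h : Blocks R E t w a b)
    (hK : ∀ u v, ev R u v u v ≤ 0) : 0 ≤ (-1) ^ n * gaussBonnet n R := by
  have h0 : 0 < E.det ^ 2 := by
    have := h.1
    positivity
  have h1 : 0 ≤ gaussBonnet n (dmb t w a b) := by
    refine gb_dmb_nonneg h.2.1 fun i y => ?_
    rw [ev_blocks h]
    have := hK (E.mulVec (Pi.single i 1)) (E.mulVec y)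
    linarith
  rw [← gb_blocks h] at h1
  exact nonneg_of_mul_nonneg_right h1 h0

/-- The pointwise theorem, strict form. -/
theorem blocks_pos {n : ℕ} {R : Arr (2 * n)} {E : Matrix (Fin (2 * n)) (Fin (2 * n)) ℝ} {t : Fin (2 * n) → ℕ}
    {w : Fin (2 * n) → Fin (2 * n) → ℝ} {a b : Fin (2 * n) → ℝ} (h : Blocks R E t w a b)
    (hK : ∀ u v, LinearIndependent ℝ ![u, v] → ev R u v u v < 0) : 0 < (-1) ^ n * gaussBonnet n R := by
  have h0 : 0 < E.det ^ 2 := by
    have := h.1
    positivity
  obtain ⟨c, hc, hcy⟩ := exists_c (D := dmb t w a b) (dmb_skew1 h.2.1 a b t) (dmb_skew2 w a b t) (by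
    intro i y hyi hy
    rw [ev_blocks h]
    have h2 : LinearIndependent ℝ ![E.mulVec (Pi.single i 1), E.mulVec y] := by
      rw [LinearIndependent.pair_iff]
      intro s t' hst
      have h3 : E.mulVec (s • (Pi.single i 1 : Fin (2 * n) → ℝ) + t' • y) = 0 := by
        rw [Matrix.mulVec_add, Matrix.mulVec_smul, Matrix.mulVec_smul]
        exact hst
      have h4 := Matrix.eq_zero_of_mulVec_eq_zero h.1 h3
      have h5 : s = 0 := by
        have h6 := congrFun h4 i
        simpa [hyi] using h6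
      refine ⟨h5, ?_⟩
      rw [h5, zero_smul, zero_add] at h4
      exact (smul_eq_zero.1 h4).resolve_right hy
    have := hK _ _ h2
    linarith)
  have h1 : 0 < gaussBonnet n (dmb t w a b) := by
    refine lt_of_lt_of_le ?_ (gb_dmb_pos h.2.1 hc.le hcy)
    positivity
  rw [← gb_blocks h] at h1
  exact pos_of_mul_pos_right h1 h0.le

end H39G
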