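import Pool.Agent.Lib.H39G.D
import Pool.Agent.Lib.H39G.L

/-! # H39G, chunk S2: the sum over all permutations of the local quantity -/

set_option autoImplicit false

namespace H39G

open Finset Equiv Pool.Agent.H69Hopf

/-- PROOF: call the summand `F σ`; `∑ F σ = ∑ F (σ * π)` for every `π` (`Equiv.sum_comp (Equiv.mulRight π)`), so
`3 ∑ F σ = ∑ (F σ + F (σ * swap (snd i) (fst j)) + F (σ * swap (snd i) (snd j)))`, and for every `σ` the sum of the
three is `≥ 0`: with `a, b, c, d = σ (fst i), σ (snd i), σ (fst j), σ (snd j)` the pairs are `ab|cd`, `ac|bd`, `ad|cb`, the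
other pairs do not change; take out the product of the other `w` (`Finset.mul_prod_erase` twice), and apply `local3` with
`L` = the sum of the other `lm`, `P = w ab * w cd`, `x = m ab * m cd`, `y = m ac * m bd`, `z = m ad * m bc` (Pluecker,
`lam * w = m ^ 2`). -/
theorem sym_ineq {n : ℕ} {w m lam : Fin (2 * n) → Fin (2 * n) → ℝ} (h : Dat w m lam) {i j : Fin n} (hij : i ≠ j) :
    0 ≤ ∑ σ : Perm (Fin (2 * n)), (∏ l, w (σ (fst l)) (σ (snd l))) * (gij lam σ i j / ∑ l, lm lam σ l) := by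
  classical
  obtain ⟨F, hF⟩ : ∃ F : Perm (Fin (2 * n)) → ℝ, ∀ σ, F σ =
      (∏ l, w (σ (fst l)) (σ (snd l))) * (gij lam σ i j / ∑ l, lm lam σ l) := ⟨_, fun _ => rfl⟩
  have hsum : ∑ σ : Perm (Fin (2 * n)), (∏ l, w (σ (fst l)) (σ (snd l))) * (gij lam σ i j / ∑ l, lm lam σ l) =
      ∑ σ, F σ := Finset.sum_congr rfl fun σ _ => (hF σ).symm
  rw [hsum]
  have hπ : ∀ π : Perm (Fin (2 * n)), ∑ σ, F (σ * π) = ∑ σ, F σ := fun π =>
    Equiv.sum_comp (Equiv.mulRight π) F
  -- the four places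
  have n1 : fst i ≠ snd i := fst_ne_snd i i
  have n2 : fst i ≠ fst j := fun e => hij (fst_inj.1 e)
  have n3 : fst i ≠ snd j := fst_ne_snd i j
  have n4 : snd i ≠ fst j := (fst_ne_snd j i).symm
  have n5 : snd i ≠ snd j := fun e => hij (snd_inj.1 e)
  have n6 : fst j ≠ snd j := fst_ne_snd j j
  have hloc : ∀ σ : Perm (Fin (2 * n)), 0 ≤ F σ + F (σ * swap (snd i) (fst j)) + F (σ * swap (snd i) (snd j)) := by
    intro σ
    obtain ⟨s, hs⟩ : ∃ s : Finset (Fin n), s = (univ.erase i).erase j := ⟨_, rfl⟩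
    have hsm : ∀ l, l ∈ s → l ≠ i ∧ l ≠ j := by
      intro l hl
      rw [hs, mem_erase, mem_erase] at hl
      exact ⟨hl.2.1, hl.1⟩
    obtain ⟨Pr, hPr⟩ : ∃ Pr : ℝ, Pr = ∏ l ∈ s, w (σ (fst l)) (σ (snd l)) := ⟨_, rfl⟩
    obtain ⟨L, hL⟩ : ∃ L : ℝ, L = ∑ l ∈ s, lm lam σ l := ⟨_, rfl⟩
    have hPr0 : 0 ≤ Pr := by
      rw [hPr]
      exact Finset.prod_nonneg fun l _ => h.w0 _ _
    have hL0 : 0 ≤ L := by
      rw [hL]
      exact Finset.sum_nonneg fun l _ => h.l0 _ _
    have key : ∀ τ : Perm (Fin (2 * n)), (∀ l, l ≠ i → l ≠ j → τ (fst l) = σ (fst l) ∧ τ (snd l) = σ (snd l)) →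
        F τ = Pr * ((w (τ (fst i)) (τ (snd i)) * w (τ (fst j)) (τ (snd j))) *
          (gij lam τ i j / (L + lm lam τ i + lm lam τ j))) := by
      intro τ hτ
      have e1 : ∏ l, w (τ (fst l)) (τ (snd l)) =
          w (τ (fst i)) (τ (snd i)) * (w (τ (fst j)) (τ (snd j)) * Pr) := by
        rw [← Finset.mul_prod_erase univ _ (mem_univ i),
          ← Finset.mul_prod_erase (univ.erase i) _ (mem_erase.2 ⟨hij.symm, mem_univ j⟩), ← hs, hPr]
        congr 2
        refine Finset.prod_congr rfl fun l hl => ?_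
        obtain ⟨k1, k2⟩ := hsm l hl
        obtain ⟨k3, k4⟩ := hτ l k1 k2
        rw [k3, k4]
      have e2 : ∑ l, lm lam τ l = L + lm lam τ i + lm lam τ j := by
        rw [← Finset.add_sum_erase univ _ (mem_univ i),
          ← Finset.add_sum_erase (univ.erase i) _ (mem_erase.2 ⟨hij.symm, mem_univ j⟩), ← hs]
        have e3 : ∑ l ∈ s, lm lam τ l = L := by
          rw [hL]
          refine Finset.sum_congr rfl fun l hl => ?_
          obtain ⟨k1, k2⟩ := hsm l hl
          obtain ⟨k3, k4⟩ := hτ l k1 k2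
          unfold lm
          rw [k3, k4]
        rw [e3]
        ring
      rw [hF, e1, e2]
      ring
    have hfix : ∀ (x y : Fin (2 * n)) (l : Fin n), fst l ≠ x → fst l ≠ y → snd l ≠ x → snd l ≠ y →
        (σ * swap x y) (fst l) = σ (fst l) ∧ (σ * swap x y) (snd l) = σ (snd l) := by
      intro x y l h1 h2 h3 h4
      rw [Perm.mul_apply, Perm.mul_apply, swap_apply_of_ne_of_ne h1 h2, swap_apply_of_ne_of_ne h3 h4]
      exact ⟨rfl, rfl⟩
    have k0 := key σ fun l _ _ => ⟨rfl, rfl⟩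
    have k1 := key (σ * swap (snd i) (fst j)) fun l hi hj => hfix _ _ l (fst_ne_snd l i)
      (fun e => hj (fst_inj.1 e)) (fun e => hi (snd_inj.1 e)) (fst_ne_snd j l).symm
    have k2 := key (σ * swap (snd i) (snd j)) fun l hi hj => hfix _ _ l (fst_ne_snd l i)
      (fst_ne_snd l j) (fun e => hi (snd_inj.1 e)) (fun e => hj (snd_inj.1 e))
    obtain ⟨a, ha⟩ : ∃ a, a = σ (fst i) := ⟨_, rfl⟩
    obtain ⟨b, hb⟩ : ∃ b, b = σ (snd i) := ⟨_, rfl⟩
    obtain ⟨c, hc⟩ : ∃ c, c = σ (fst j) := ⟨_, rfl⟩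
    obtain ⟨d, hd⟩ : ∃ d, d = σ (snd j) := ⟨_, rfl⟩
    have p1 : (σ * swap (snd i) (fst j)) (fst i) = a := by
      rw [Perm.mul_apply, swap_apply_of_ne_of_ne n1 n2, ha]
    have p2 : (σ * swap (snd i) (fst j)) (snd i) = c := by
      rw [Perm.mul_apply, swap_apply_left, hc]
    have p3 : (σ * swap (snd i) (fst j)) (fst j) = b := by
      rw [Perm.mul_apply, swap_apply_right, hb]
    have p4 : (σ * swap (snd i) (fst j)) (snd j) = d := by
      rw [Perm.mul_apply, swap_apply_of_ne_of_ne n5.symm n6.symm, hd]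
    have q1 : (σ * swap (snd i) (snd j)) (fst i) = a := by
      rw [Perm.mul_apply, swap_apply_of_ne_of_ne n1 n3, ha]
    have q2 : (σ * swap (snd i) (snd j)) (snd i) = d := by
      rw [Perm.mul_apply, swap_apply_left, hd]
    have q3 : (σ * swap (snd i) (snd j)) (fst j) = c := by
      rw [Perm.mul_apply, swap_apply_of_ne_of_ne n4.symm n6, hc]
    have q4 : (σ * swap (snd i) (snd j)) (snd j) = b := by
      rw [Perm.mul_apply, swap_apply_right, hb]
    unfold gij X4 lm at k0 k1 k2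
    rw [← ha, ← hb, ← hc, ← hd] at k0
    rw [p1, p2, p3, p4] at k1
    rw [q1, q2, q3, q4] at k2
    have hw := fun x y => h.lw x y
    have main := local3 (p := lam a b) (p' := lam c d) (q := lam a c) (q' := lam b d) (r := lam a d) (r' := lam b c)
      (P := w a b * w c d) (Q := w a c * w b d) (R := w a d * w b c) (x := m a b * m c d) (y := m a c * m b d)
      (z := m a d * m b c) (L := L) (h.l0 _ _) (h.l0 _ _) (h.l0 _ _) (h.l0 _ _) (h.l0 _ _) (h.l0 _ _)
      (mul_nonneg (h.w0 _ _) (h.w0 _ _)) (mul_nonneg (h.w0 _ _) (h.w0 _ _)) (mul_nonneg (h.w0 _ _) (h.w0 _ _)) hL0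
      (by rw [mul_pow, ← hw, ← hw]; ring) (by rw [mul_pow, ← hw, ← hw]; ring) (by rw [mul_pow, ← hw, ← hw]; ring)
      (h.plu.2 a b c d)
    rw [k0, k1, k2, h.ls c b, h.ls d c, h.ls d b, h.ws c b, ← mul_add, ← mul_add]
    refine mul_nonneg hPr0 ?_
    have e1 : (lam a b + lam c d) * (lam a c + lam a d + lam b c + lam b d) =
        (lam a b + lam c d) * (lam a c + lam b d + lam a d + lam b c) := by ring
    have e2 : (lam a c + lam b d) * (lam a b + lam a d + lam b c + lam c d) =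
        (lam a c + lam b d) * (lam a b + lam c d + lam a d + lam b c) := by ring
    have e3 : (lam a d + lam b c) * (lam a c + lam a b + lam c d + lam b d) =
        (lam a d + lam b c) * (lam a b + lam c d + lam a c + lam b d) := by ring
    rw [e1, e2, e3]
    exact main
  have h3 : 0 ≤ ∑ σ, (F σ + F (σ * swap (snd i) (fst j)) + F (σ * swap (snd i) (snd j))) :=
    Finset.sum_nonneg fun σ _ => hloc σ
  rw [Finset.sum_add_distrib, Finset.sum_add_distrib, hπ, hπ] at h3
  linarith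

end H39G
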