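import Pool.Agent.Lib.H39G.S1
import Pool.Agent.Lib.H39G.S2

/-! # H39G, chunk S: the inequality for sums over permutations (perfect matchings) -/

set_option autoImplicit false

namespace H39G

open Finset Equiv Pool.Agent.H69Hopf

/-- PROOF: `row_ineq` times the product of the `w`, summed over `σ`; exchange the sums, `sym_ineq` for `i ≠ j`,
`gij_self` for `i = j`. -/
theorem sum_perm {n : ℕ} {w m lam : Fin (2 * n) → Fin (2 * n) → ℝ} (h : Dat w m lam) {ρ : ℝ} (hρ : 0 ≤ ρ)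
    (hrow : ∀ i, ∑ j, lam i j ≤ ρ) :
    0 ≤ ∑ σ : Perm (Fin (2 * n)), (∏ l, w (σ (fst l)) (σ (snd l))) * (ρ - ∑ l, lm lam σ l) := by
  have h1 : ∀ σ : Perm (Fin (2 * n)), (∏ l, w (σ (fst l)) (σ (snd l))) *
      ((∑ i, ∑ j, gij lam σ i j) / (∑ i, lm lam σ i)) ≤
      (∏ l, w (σ (fst l)) (σ (snd l))) * (ρ - ∑ l, lm lam σ l) := fun σ =>
    mul_le_mul_of_nonneg_left (row_ineq h hρ hrow σ) (prod_nonneg fun l _ => h.w0 _ _)
  refine le_trans ?_ (sum_le_sum fun σ _ => h1 σ)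
  have h2 : ∑ σ : Perm (Fin (2 * n)), (∏ l, w (σ (fst l)) (σ (snd l))) *
      ((∑ i, ∑ j, gij lam σ i j) / (∑ i, lm lam σ i)) =
      ∑ i, ∑ j, ∑ σ : Perm (Fin (2 * n)), (∏ l, w (σ (fst l)) (σ (snd l))) *
        (gij lam σ i j / (∑ i, lm lam σ i)) := by
    have h3 : ∀ σ : Perm (Fin (2 * n)), (∏ l, w (σ (fst l)) (σ (snd l))) *
        ((∑ i, ∑ j, gij lam σ i j) / (∑ i, lm lam σ i)) =
        ∑ i, ∑ j, (∏ l, w (σ (fst l)) (σ (snd l))) * (gij lam σ i j / (∑ i, lm lam σ i)) := by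
      intro σ
      rw [sum_div, mul_sum]
      refine sum_congr rfl fun i _ => ?_
      rw [sum_div, mul_sum]
    rw [sum_congr rfl fun σ _ => h3 σ, sum_comm]
    refine sum_congr rfl fun i _ => ?_
    rw [sum_comm]
  rw [h2]
  refine sum_nonneg fun i _ => sum_nonneg fun j _ => ?_
  by_cases hij : i = j
  · subst hij
    refine sum_nonneg fun σ _ => ?_
    rw [gij_self h, zero_div, mul_zero]
  · exact sym_ineq h hij

end H39G
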