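import Pool.Agent.Lib.H39G.D

/-! # H39G, chunk S1: the row sums -/

set_option autoImplicit false

namespace H39G

open Finset Equiv Pool.Agent.H69Hopf

private theorem s1_sum {n : ℕ} (f : Fin (2 * n) → ℝ) : ∑ x, f x = ∑ j : Fin n, (f (fst j) + f (snd j)) := by
  have hb : Function.Bijective (Sum.elim (fst : Fin n → Fin (2 * n)) snd) := by
    constructor
    · rintro (i | i) (j | j) h
      · exact congrArg Sum.inl (fst_inj.1 h)
      · exact absurd h (fst_ne_snd i j)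
      · exact absurd h.symm (fst_ne_snd j i)
      · exact congrArg Sum.inr (snd_inj.1 h)
    · intro r
      obtain ⟨i, hi | hi⟩ := exists_fst_or_snd r
      · exact ⟨Sum.inl i, hi.symm⟩
      · exact ⟨Sum.inr i, hi.symm⟩
  rw [← (Equiv.ofBijective _ hb).sum_comp f, Fintype.sum_sum_type, sum_add_distrib]
  rfl

/-- PROOF: `∑ j (lam a (σ (fst j)) + lam a (σ (snd j))) = ∑ x, lam a x ≤ ρ` (the `fst j`, `snd j` enumerate `Fin (2 n)`:
`exists_fst_or_snd`, `fst_inj`, `snd_inj`, `fst_ne_snd`; `Equiv.sum_comp`). So `∑ j X4 i j ≤ 2 ρ`, and by symmetry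
`∑ i ∑ j gij = 1/2 ∑ i lm i ∑ j X4 i j - (∑ lm) ^ 2 ≤ ρ Λ - Λ ^ 2`, `Λ = ∑ lm`. Divide by `Λ` (if `Λ = 0` then the left side
is `_ / 0 = 0 ≤ ρ`). -/
theorem row_ineq {n : ℕ} {w m lam : Fin (2 * n) → Fin (2 * n) → ℝ} (h : Dat w m lam) {ρ : ℝ} (hρ : 0 ≤ ρ)
    (hrow : ∀ i, ∑ j, lam i j ≤ ρ) (σ : Perm (Fin (2 * n))) :
    (∑ i, ∑ j, gij lam σ i j) / (∑ i, lm lam σ i) ≤ ρ - ∑ i, lm lam σ i := by
  have hl0 : ∀ i, 0 ≤ lm lam σ i := fun i => h.l0 _ _
  have hΛ : 0 ≤ ∑ i, lm lam σ i := sum_nonneg fun i _ => hl0 i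
  have hsum : ∀ a : Fin (2 * n), ∑ j : Fin n, (lam a (σ (fst j)) + lam a (σ (snd j))) ≤ ρ := by
    intro a
    rw [← s1_sum (fun x => lam a (σ x)), Equiv.sum_comp σ (fun x => lam a x)]
    exact hrow a
  have hX : ∀ i, ∑ j, X4 lam σ i j ≤ 2 * ρ := by
    intro i
    have e : ∑ j, X4 lam σ i j = ∑ j : Fin n, (lam (σ (fst i)) (σ (fst j)) + lam (σ (fst i)) (σ (snd j))) +
        ∑ j : Fin n, (lam (σ (snd i)) (σ (fst j)) + lam (σ (snd i)) (σ (snd j))) := by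
      rw [← sum_add_distrib]
      refine sum_congr rfl fun j _ => ?_
      unfold X4
      ring
    rw [e]
    linarith [hsum (σ (fst i)), hsum (σ (snd i))]
  have hsymm : ∀ i j, X4 lam σ i j = X4 lam σ j i := by
    intro i j
    unfold X4
    rw [h.ls (σ (fst i)) (σ (fst j)), h.ls (σ (fst i)) (σ (snd j)), h.ls (σ (snd i)) (σ (fst j)),
      h.ls (σ (snd i)) (σ (snd j))]
    ring
  have hA : ∑ i, ∑ j, lm lam σ j * X4 lam σ i j = ∑ i, ∑ j, lm lam σ i * X4 lam σ i j := by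
    rw [sum_comm]
    refine sum_congr rfl fun i _ => sum_congr rfl fun j _ => ?_
    rw [hsymm j i]
  have hB : ∑ i, ∑ j, lm lam σ i * X4 lam σ i j ≤ 2 * ρ * ∑ i, lm lam σ i := by
    rw [mul_sum]
    refine sum_le_sum fun i _ => ?_
    rw [← mul_sum, mul_comm]
    exact mul_le_mul_of_nonneg_right (hX i) (hl0 i)
  have hC : ∑ i, ∑ j, gij lam σ i j =
      (∑ i, ∑ j, lm lam σ i * X4 lam σ i j + ∑ i, ∑ j, lm lam σ j * X4 lam σ i j) / 4 -
      (∑ i, lm lam σ i) * ∑ i, lm lam σ i := by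
    rw [sum_mul_sum, ← sum_add_distrib, sum_div, ← sum_sub_distrib]
    refine sum_congr rfl fun i _ => ?_
    rw [← sum_add_distrib, sum_div, ← sum_sub_distrib]
    refine sum_congr rfl fun j _ => ?_
    unfold gij
    ring
  have hD : ∑ i, ∑ j, gij lam σ i j ≤ (ρ - ∑ i, lm lam σ i) * ∑ i, lm lam σ i := by
    rw [hC, hA]
    linarith
  rcases hΛ.eq_or_lt with h0 | h0
  · rw [← h0, div_zero, sub_zero]
    exact hρ
  · rw [div_le_iff₀ h0]
    exact hD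

/-- The diagonal terms vanish (`lam` is `0` on the diagonal and symmetric). -/
theorem gij_self {n : ℕ} {w m lam : Fin (2 * n) → Fin (2 * n) → ℝ} (h : Dat w m lam) (σ : Perm (Fin (2 * n)))
    (i : Fin n) : gij lam σ i i = 0 := by
  unfold gij X4 lm
  rw [h.ld, h.ld, h.ls (σ (snd i)) (σ (fst i))]
  ring

end H39G
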